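import Mathlib
set_option autoImplicit false
universe w v u v' u' v'' u''
open CategoryTheory CategoryTheory.Abelian CategoryTheory.Limits
namespace H965R5.Rig

section
variable {C : Type u} [Category.{v} C] [Abelian C] [HasExt.{w} C] [EnoughProjectives C]
variable {D : Type u'} [Category.{v'} D] [Abelian D] [HasExt.{w} D]

/-- every class of positive degree factors through an extension class -/
lemma exists_ext_comp {X Y : C} {n : ℕ} (ξ : Ext.{w} X Y (n + 1)) :
    ∃ (S : ShortComplex C) (hS : S.ShortExact) (h : S.X₃ = X) (ξ' : Ext.{w} S.X₁ Y n),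
      ξ = (h ▸ hS.extClass.comp ξ' (add_comm 1 n)) := by
  let P : ProjectivePresentation X := Classical.arbitrary _
  let S := ShortComplex.mk _ _ (kernel.condition P.f)
  have hS : S.ShortExact := { exact := ShortComplex.exact_kernel P.f }
  have hP : Projective S.X₂ := P.projective
  obtain ⟨x, hx⟩ := Ext.contravariant_sequence_exact₃ hS Y ξ
    (by
      have := Ext.subsingleton_of_projective (P := S.X₂) (Y := Y) (n := n)
      exact Subsingleton.elim _ _) (add_comm 1 n)
  exact ⟨S, hS, rfl, x, hx.symm⟩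

/-- naturality, on extension classes -/
lemma nat1 (F G : C ⥤ D) [F.Additive] [G.Additive] [PreservesFiniteLimits F]
    [PreservesFiniteColimits F] [PreservesFiniteLimits G] [PreservesFiniteColimits G]
    (τ : F ⟶ G) {S : ShortComplex C} (hS : S.ShortExact) :
    (hS.extClass.mapExactFunctor F).comp (Ext.mk₀ (τ.app S.X₁)) (add_zero 1) =
      (Ext.mk₀ (τ.app S.X₃)).comp (hS.extClass.mapExactFunctor G) (zero_add 1) := by
  have h := ShortComplex.ShortExact.extClass_naturality (hS.map_of_exact F) (hS.map_of_exact G)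
      ({ τ₁ := τ.app S.X₁, τ₂ := τ.app S.X₂, τ₃ := τ.app S.X₃,
         comm₁₂ := (τ.naturality S.f).symm, comm₂₃ := (τ.naturality S.g).symm } : S.map F ⟶ S.map G)
  rw [Ext.mapExactFunctor_extClass, Ext.mapExactFunctor_extClass]
  exact h

/-- naturality of the action of exact functors on Ext -/
lemma ext_naturality (F G : C ⥤ D) [F.Additive] [G.Additive] [PreservesFiniteLimits F]
    [PreservesFiniteColimits F] [PreservesFiniteLimits G] [PreservesFiniteColimits G]
    (τ : F ⟶ G) : ∀ (n : ℕ) (X Y : C) (ξ : Ext.{w} X Y n),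
    (ξ.mapExactFunctor F).comp (Ext.mk₀ (τ.app Y)) (add_zero n) =
      (Ext.mk₀ (τ.app X)).comp (ξ.mapExactFunctor G) (zero_add n) := by
  intro n
  induction n with
  | zero =>
    intro X Y ξ
    obtain ⟨f, rfl⟩ := (Ext.mk₀_bijective X Y).2 ξ
    simp [Ext.mapExactFunctor_mk₀]
  | succ n ih =>
    intro X Y ξ
    obtain ⟨S, hS, h, ξ', rfl⟩ := exists_ext_comp ξ
    subst h
    rw [Ext.mapExactFunctor_comp, Ext.mapExactFunctor_comp,
      Ext.comp_assoc _ _ _ (add_comm 1 n) (add_zero n) (by omega), ih,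
      ← Ext.comp_assoc _ _ _ (add_zero 1) (zero_add n) (by omega), nat1,
      Ext.comp_assoc _ _ _ (zero_add 1) (add_comm 1 n) (by omega)]

lemma counit1 (e : C ⥤ D) (F : D ⥤ C) [F.Additive] [e.Additive] [PreservesFiniteLimits F]
    [PreservesFiniteColimits F] [PreservesFiniteLimits e] [PreservesFiniteColimits e]
    (ε : e ⋙ F ⟶ 𝟭 C) {S : ShortComplex C} (hS : S.ShortExact) :
    ((hS.extClass.mapExactFunctor e).mapExactFunctor F).comp (Ext.mk₀ (ε.app S.X₁))
      (add_zero 1) = (Ext.mk₀ (ε.app S.X₃)).comp hS.extClass (zero_add 1) := by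
  have h := ShortComplex.ShortExact.extClass_naturality
      ((hS.map_of_exact e).map_of_exact F) hS
      ({ τ₁ := ε.app S.X₁, τ₂ := ε.app S.X₂, τ₃ := ε.app S.X₃,
         comm₁₂ := (ε.naturality S.f).symm,
         comm₂₃ := (ε.naturality S.g).symm } : (S.map e).map F ⟶ S)
  have h2 : (hS.map_of_exact e).extClass.mapExactFunctor F =
    ((hS.map_of_exact e).map_of_exact F).extClass := Ext.mapExactFunctor_extClass _ _
  rw [Ext.mapExactFunctor_extClass]
  rw [← h2] at h
  exact h

/-- the same with a composite functor, for a natural transformation `e ⋙ F ⟶ 𝟭` -/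
lemma ext_counit (e : C ⥤ D) (F : D ⥤ C) [F.Additive] [e.Additive] [PreservesFiniteLimits F]
    [PreservesFiniteColimits F] [PreservesFiniteLimits e] [PreservesFiniteColimits e]
    (ε : e ⋙ F ⟶ 𝟭 C) : ∀ (n : ℕ) (X Y : C) (ξ : Ext.{w} X Y n),
    ((ξ.mapExactFunctor e).mapExactFunctor F).comp (Ext.mk₀ (ε.app Y)) (add_zero n) =
      (Ext.mk₀ (ε.app X)).comp ξ (zero_add n) := by
  intro n
  induction n with
  | zero =>
    intro X Y ξ
    obtain ⟨f, rfl⟩ := (Ext.mk₀_bijective X Y).2 ξ
    have := ε.naturality f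
    simp only [Functor.comp_map, Functor.id_map] at this
    simp [Ext.mapExactFunctor_mk₀, this]
  | succ n ih =>
    intro X Y ξ
    obtain ⟨S, hS, h, ξ', rfl⟩ := exists_ext_comp ξ
    subst h
    dsimp only
    rw [Ext.mapExactFunctor_comp, Ext.mapExactFunctor_comp]
    have h0 := ih _ _ ξ'
    have h1 := counit1 e F ε hS
    calc _ = ((hS.extClass.mapExactFunctor e).mapExactFunctor F).comp
          (((ξ'.mapExactFunctor e).mapExactFunctor F).comp (Ext.mk₀ (ε.app Y)) (add_zero n))
          (add_comm 1 n) :=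
        Ext.comp_assoc _ _ _ (add_comm 1 n) (add_zero n) (by omega)
      _ = ((hS.extClass.mapExactFunctor e).mapExactFunctor F).comp
          ((Ext.mk₀ (ε.app S.X₁)).comp ξ' (zero_add n)) (add_comm 1 n) := by rw [h0]
      _ = (((hS.extClass.mapExactFunctor e).mapExactFunctor F).comp (Ext.mk₀ (ε.app S.X₁))
          (add_zero 1)).comp ξ' (add_comm 1 n) :=
        (Ext.comp_assoc _ _ _ (add_zero 1) (zero_add n) (by omega)).symm
      _ = ((Ext.mk₀ (ε.app S.X₃)).comp hS.extClass (zero_add 1)).comp ξ' (add_comm 1 n) := by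
        rw [h1]
      _ = _ := Ext.comp_assoc _ _ _ (zero_add 1) (add_comm 1 n) (by omega)

/-- vanishing transfer along `F ⊣ e` (only the unit, the counit and one triangle identity) -/
lemma ext_transfer (e : C ⥤ D) (F : D ⥤ C) [F.Additive] [e.Additive] [PreservesFiniteLimits F]
    [PreservesFiniteColimits F] [PreservesFiniteLimits e] [PreservesFiniteColimits e]
    (ε : e ⋙ F ⟶ 𝟭 C) (n : ℕ) (N : D) (Y : C) (η : N ⟶ e.obj (F.obj N))
    (htri : F.map η ≫ ε.app (F.obj N) = 𝟙 _)
    (h : ∀ z : Ext.{w} N (e.obj Y) n, z = 0) (ζ : Ext.{w} (F.obj N) Y n) : ζ = 0 := by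
  have h1 : (Ext.mk₀ (F.map η)).comp ((Ext.mk₀ (ε.app (F.obj N))).comp ζ (zero_add n))
      (zero_add n) = ζ := by
    rw [Ext.mk₀_comp_mk₀_assoc, htri]
    simp
  have h2 := ext_counit e F ε n (F.obj N) Y ζ
  have h3 := h ((Ext.mk₀ η).comp (ζ.mapExactFunctor e) (zero_add n))
  rw [← h1, ← h2, ← Ext.comp_assoc _ _ _ (zero_add n) (add_zero n) (by omega),
    ← Ext.mapExactFunctor_mk₀, ← Ext.mapExactFunctor_comp, h3]
  simp
end
end H965R5.Rig
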