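import Pool.Agent.H965R5.Rig.Ring
set_option autoImplicit false
universe u
namespace H965R5.Rig.Conn

open H965R5.Rig

theorem conn_ok : TaskConn.{u} := by
  intro A _ hA c hc hcomm
  have h1 := hcomm ⟨1, 0, 0, 0⟩
  have hu : c.u = 0 := by
    have := congrArg Kr.u h1
    simpa using this
  have hv : c.v = 0 := by
    have := congrArg Kr.v h1
    simpa using this
  have h2 := hcomm ⟨0, 0, 1, 0⟩
  have hb : c.b = c.a := by
    have := congrArg Kr.u h2
    simpa using this
  have hcen : ∀ x, c.a * x = x * c.a := by
    intro x
    have := congrArg Kr.a (hcomm (Kr.iota x))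
    simpa using this
  have hid : c.a * c.a = c.a := by
    have := congrArg Kr.a hc
    simpa using this
  rcases hA c.a hid hcen with h | h
  · left
    ext
    · simpa using h
    · simp [hb, h]
    · simpa using hu
    · simpa using hv
  · right
    ext
    · simpa using h
    · simp [hb, h]
    · simpa using hu
    · simpa using hv

end H965R5.Rig.Conn
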