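import Pool.Agent.H965R5.Rig.Ring

set_option autoImplicit false
universe u

namespace H965R5.Rig.FIN

open H965R5.Rig

theorem fin_ok : H965R5.Rig.TaskFin.{u} := by
  intro K A _ _ _ hfin
  let f : (A × A × A × A) →ₗ[K] Kr A :=
    { toFun := fun p => ⟨p.1, p.2.1, p.2.2.1, p.2.2.2⟩
      map_add' := fun p q => rfl
      map_smul' := fun c p => by
        have h : ∀ x : Kr A, c • x = Kr.iota (algebraMap K A c) * x := fun x => Algebra.smul_def c x
        rw [RingHom.id_apply, h]
        ext <;> simp [Algebra.smul_def] }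
  exact Module.Finite.of_surjective f (fun x => ⟨(x.a, x.b, x.u, x.v), rfl⟩)

end H965R5.Rig.FIN
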