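import Pool.Agent.H965R5.Rig.Ring
import Pool.Agent.H965R5.Rig.Abs
set_option autoImplicit false
set_option linter.unusedSectionVars false
universe u
open CategoryTheory CategoryTheory.Abelian CategoryTheory.Limits
namespace H965R5.Rig
variable {A : Type u} [Ring A]

namespace Kr
/-- idempotents and arrows -/
def e1 : Kr A := ⟨1, 0, 0, 0⟩
def e2 : Kr A := ⟨0, 1, 0, 0⟩
def ax : Kr A := ⟨0, 0, 1, 0⟩
def ay : Kr A := ⟨0, 0, 0, 1⟩
end Kr
open Kr

/-- an idempotent commuting with the diagonal -/
structure Idem (ε : Kr A) : Prop where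
  sq : ε * ε = ε
  comm : ∀ a : A, iota a * ε = ε * iota a

lemma idem1 : Idem (e1 : Kr A) := ⟨by ext <;> simp [e1], fun a => by ext <;> simp [e1]⟩
lemma idem2 : Idem (e2 : Kr A) := ⟨by ext <;> simp [e2], fun a => by ext <;> simp [e2]⟩

/-- the part `ε M` -/
def Pc (ε : Kr A) (M : Type u) [AddCommGroup M] [Module (Kr A) M] : AddSubgroup M where
  carrier := {m | ε • m = m}
  add_mem' := by
    intro x y hx hy
    simp only [Set.mem_setOf_eq] at *
    rw [smul_add, hx, hy]
  zero_mem' := by simp
  neg_mem' := by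
    intro x hx
    simp only [Set.mem_setOf_eq] at *
    rw [smul_neg, hx]

lemma mem_Pc {ε : Kr A} {M : Type u} [AddCommGroup M] [Module (Kr A) M] {m : M} :
    m ∈ Pc ε M ↔ ε • m = m := Iff.rfl

/-- a synonym carrying the module structure -/
def PM (ε : Kr A) (_ : Idem ε) (M : Type u) [AddCommGroup M] [Module (Kr A) M] : Type u := Pc ε M

variable {ε : Kr A} (hε : Idem ε)

section
variable (M : Type u) [AddCommGroup M] [Module (Kr A) M]
instance : AddCommGroup (PM ε hε M) := inferInstanceAs (AddCommGroup (Pc ε M))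

instance : Module A (PM ε hε M) where
  smul a m := ⟨iota a • m.1, by
    have h : ε • m.1 = m.1 := m.2
    change ε • (iota a • m.1) = _
    rw [← mul_smul, ← hε.comm, mul_smul, h]⟩
  one_smul m := Subtype.ext (by change iota 1 • m.1 = m.1; simp)
  mul_smul a b m := Subtype.ext (by
    change iota (a * b) • m.1 = iota a • (iota b • m.1); rw [map_mul, mul_smul])
  smul_zero a := Subtype.ext (smul_zero (iota a))
  smul_add a m n := Subtype.ext (smul_add (iota a) m.1 n.1)
  add_smul a b m := Subtype.ext (by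
    change iota (a + b) • m.1 = iota a • m.1 + iota b • m.1; rw [map_add, add_smul])
  zero_smul m := Subtype.ext (by change iota 0 • m.1 = 0; simp)
end

lemma PM_smul {M : Type u} [AddCommGroup M] [Module (Kr A) M] (a : A) (m : PM ε hε M) :
    (a • m).1 = iota a • m.1 := rfl
lemma PM_add {M : Type u} [AddCommGroup M] [Module (Kr A) M] (m n : PM ε hε M) :
    (m + n).1 = m.1 + n.1 := rfl
lemma PM_zero {M : Type u} [AddCommGroup M] [Module (Kr A) M] :
    (0 : PM ε hε M).1 = 0 := rfl
lemma PM_prop {M : Type u} [AddCommGroup M] [Module (Kr A) M] (m : PM ε hε M) :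
    ε • m.1 = m.1 := m.2
lemma PM_ext {M : Type u} [AddCommGroup M] [Module (Kr A) M] {m n : PM ε hε M}
    (h : m.1 = n.1) : m = n := Subtype.ext h

/-- action on morphisms -/
def PMmap {M N : Type u} [AddCommGroup M] [Module (Kr A) M] [AddCommGroup N] [Module (Kr A) N]
    (f : M →ₗ[Kr A] N) : PM ε hε M →ₗ[A] PM ε hε N where
  toFun m := ⟨f m.1, by
    change ε • f m.1 = f m.1
    rw [← map_smul, PM_prop]⟩
  map_add' m n := Subtype.ext (map_add f m.1 n.1)
  map_smul' a m := Subtype.ext (map_smul f (iota a) m.1)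

lemma PMmap_val {M N : Type u} [AddCommGroup M] [Module (Kr A) M] [AddCommGroup N]
    [Module (Kr A) N] (f : M →ₗ[Kr A] N) (m : PM ε hε M) : (PMmap hε f m).1 = f m.1 := rfl

/-- the functor `M ↦ ε M` -/
def ev : ModuleCat.{u} (Kr A) ⥤ ModuleCat.{u} A where
  obj M := ModuleCat.of A (PM ε hε M)
  map f := ModuleCat.ofHom (PMmap hε f.hom)
  map_id M := by
    ext m
    rfl
  map_comp f g := by
    ext m
    rfl

instance : (ev hε).Additive where
  map_add := by
    intro M N f g
    ext m
    rfl

lemma ev_shortExact (S : ShortComplex (ModuleCat.{u} (Kr A))) (hS : S.ShortExact) :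
    (S.map (ev hε)).ShortExact := by
  have hf := hS.moduleCat_injective_f
  have hg := hS.moduleCat_surjective_g
  have hex := (ShortComplex.ShortExact.moduleCat_exact_iff_function_exact _).1 hS.exact
  refine ModuleCat.shortComplex_shortExact _ ?_ ?_ ?_
  · intro m
    constructor
    · intro h
      have h1 : S.g.hom m.1 = 0 := congrArg Subtype.val h
      obtain ⟨l, hl⟩ := (hex m.1).1 h1
      refine ⟨⟨ε • l, by change ε • (ε • l) = _; rw [← mul_smul, hε.sq]⟩, ?_⟩
      apply Subtype.ext
      change S.f.hom (ε • l) = m.1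
      rw [map_smul]
      have h3 : S.f.hom l = m.1 := hl
      rw [h3]
      exact m.2
    · rintro ⟨l, rfl⟩
      apply Subtype.ext
      exact (hex _).2 ⟨l.1, rfl⟩
  · intro m n h
    apply Subtype.ext
    exact hf (congrArg Subtype.val h)
  · intro n
    obtain ⟨m, hm⟩ := hg n.1
    refine ⟨⟨ε • m, by change ε • (ε • m) = _; rw [← mul_smul, hε.sq]⟩, ?_⟩
    apply Subtype.ext
    change S.g.hom (ε • m) = n.1
    rw [map_smul]
    have h3 : S.g.hom m = n.1 := hm
    rw [h3]
    exact n.2

lemma ev_exact : PreservesFiniteLimits (ev hε) ∧ PreservesFiniteColimits (ev hε) :=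
  ((Functor.exact_tfae (ev hε)).out 0 3).1 (ev_shortExact hε)
instance : PreservesFiniteLimits (ev hε) := (ev_exact hε).1
instance : PreservesFiniteColimits (ev hε) := (ev_exact hε).2

/-! the induced modules -/

def F1T (N : Type u) : Type u := N × N × N
def F2T (N : Type u) : Type u := N

section
variable (N : Type u) [AddCommGroup N] [Module A N]
instance : AddCommGroup (F1T N) := inferInstanceAs (AddCommGroup (N × N × N))
instance : AddCommGroup (F2T N) := inferInstanceAs (AddCommGroup N)
instance : Module (Kr A) (F1T N) where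
  smul r m := (r.a • m.1, r.b • m.2.1 + r.u • m.1, r.b • m.2.2 + r.v • m.1)
  one_smul m := by
    change ((1 : A) • m.1, (1 : A) • m.2.1 + (0 : A) • m.1, (1 : A) • m.2.2 + (0 : A) • m.1) = m
    simp
  mul_smul r s m := by
    change ((r.a * s.a) • m.1, (r.b * s.b) • m.2.1 + (r.b * s.u + r.u * s.a) • m.1,
      (r.b * s.b) • m.2.2 + (r.b * s.v + r.v * s.a) • m.1) =
      (r.a • (s.a • m.1), r.b • (s.b • m.2.1 + s.u • m.1) + r.u • (s.a • m.1),
      r.b • (s.b • m.2.2 + s.v • m.1) + r.v • (s.a • m.1))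
    simp only [mul_smul, add_smul, smul_add, add_assoc]
  smul_zero r := by
    change (r.a • (0 : N), r.b • (0 : N) + r.u • (0 : N), r.b • (0 : N) + r.v • (0 : N)) = 0
    simp
  smul_add r m n := by
    change (r.a • (m.1 + n.1), r.b • (m.2.1 + n.2.1) + r.u • (m.1 + n.1),
      r.b • (m.2.2 + n.2.2) + r.v • (m.1 + n.1)) =
      (r.a • m.1 + r.a • n.1, (r.b • m.2.1 + r.u • m.1) + (r.b • n.2.1 + r.u • n.1),
      (r.b • m.2.2 + r.v • m.1) + (r.b • n.2.2 + r.v • n.1))
    simp only [smul_add]
    refine Prod.ext rfl (Prod.ext ?_ ?_) <;> simp only <;> abel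
  add_smul r s m := by
    change ((r.a + s.a) • m.1, (r.b + s.b) • m.2.1 + (r.u + s.u) • m.1,
      (r.b + s.b) • m.2.2 + (r.v + s.v) • m.1) =
      (r.a • m.1 + s.a • m.1, (r.b • m.2.1 + r.u • m.1) + (s.b • m.2.1 + s.u • m.1),
      (r.b • m.2.2 + r.v • m.1) + (s.b • m.2.2 + s.v • m.1))
    simp only [add_smul]
    refine Prod.ext rfl (Prod.ext ?_ ?_) <;> simp only <;> abel
  zero_smul m := by
    change ((0 : A) • m.1, (0 : A) • m.2.1 + (0 : A) • m.1, (0 : A) • m.2.2 + (0 : A) • m.1) = 0
    simp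
instance : Module (Kr A) (F2T N) where
  smul r m := r.b • (show N from m)
  one_smul m := one_smul A (show N from m)
  mul_smul r s m := mul_smul r.b s.b (show N from m)
  smul_zero r := smul_zero (A := N) r.b
  smul_add r m n := smul_add (A := N) r.b m n
  add_smul r s m := add_smul r.b s.b (show N from m)
  zero_smul m := zero_smul A (show N from m)
end

def F1 : ModuleCat.{u} A ⥤ ModuleCat.{u} (Kr A) where
  obj N := ModuleCat.of (Kr A) (F1T N)
  map {N N'} f := ModuleCat.ofHom (Y := F1T N')
    { toFun := fun m => ((f.hom m.1, f.hom m.2.1, f.hom m.2.2) : N' × N' × N')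
      map_add' := fun m n => by
        change (f.hom (m.1 + n.1), f.hom (m.2.1 + n.2.1), f.hom (m.2.2 + n.2.2)) =
          (f.hom m.1 + f.hom n.1, f.hom m.2.1 + f.hom n.2.1, f.hom m.2.2 + f.hom n.2.2)
        simp
      map_smul' := fun r m => by
        change (f.hom (r.a • m.1), f.hom (r.b • m.2.1 + r.u • m.1),
          f.hom (r.b • m.2.2 + r.v • m.1)) = (r.a • f.hom m.1, r.b • f.hom m.2.1 + r.u • f.hom m.1,
          r.b • f.hom m.2.2 + r.v • f.hom m.1)
        simp }
  map_id N := by ext m; rfl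
  map_comp f g := by ext m; rfl

def F2 : ModuleCat.{u} A ⥤ ModuleCat.{u} (Kr A) where
  obj N := ModuleCat.of (Kr A) (F2T N)
  map {N N'} f := ModuleCat.ofHom (Y := F2T N')
    { toFun := fun m => f.hom (show N from m)
      map_add' := fun m n => map_add f.hom (show N from m) (show N from n)
      map_smul' := fun r m => map_smul f.hom r.b (show N from m) }
  map_id N := by ext m; rfl
  map_comp f g := by ext m; rfl

instance : (F1 (A := A)).Additive where
  map_add := by intro M N f g; ext m; rfl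
instance : (F2 (A := A)).Additive where
  map_add := by intro M N f g; ext m; rfl

lemma F1_shortExact (S : ShortComplex (ModuleCat.{u} A)) (hS : S.ShortExact) :
    (S.map F1).ShortExact := by
  have hf := hS.moduleCat_injective_f
  have hg := hS.moduleCat_surjective_g
  have hex := (ShortComplex.ShortExact.moduleCat_exact_iff_function_exact _).1 hS.exact
  refine ModuleCat.shortComplex_shortExact _ ?_ ?_ ?_
  · intro m
    constructor
    · intro h
      obtain ⟨l1, hl1⟩ := (hex m.1).1 (congrArg Prod.fst h)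
      obtain ⟨l2, hl2⟩ := (hex m.2.1).1 (congrArg (fun z => z.2.1) h)
      obtain ⟨l3, hl3⟩ := (hex m.2.2).1 (congrArg (fun z => z.2.2) h)
      exact ⟨(l1, l2, l3), Prod.ext hl1 (Prod.ext hl2 hl3)⟩
    · rintro ⟨l, rfl⟩
      exact Prod.ext ((hex _).2 ⟨l.1, rfl⟩) (Prod.ext ((hex _).2 ⟨l.2.1, rfl⟩)
        ((hex _).2 ⟨l.2.2, rfl⟩))
  · intro m n h
    exact Prod.ext (hf (congrArg Prod.fst h)) (Prod.ext (hf (congrArg (fun z => z.2.1) h))
      (hf (congrArg (fun z => z.2.2) h)))
  · intro n
    obtain ⟨l1, hl1⟩ := hg n.1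
    obtain ⟨l2, hl2⟩ := hg n.2.1
    obtain ⟨l3, hl3⟩ := hg n.2.2
    exact ⟨(l1, l2, l3), Prod.ext hl1 (Prod.ext hl2 hl3)⟩

lemma F2_shortExact (S : ShortComplex (ModuleCat.{u} A)) (hS : S.ShortExact) :
    (S.map F2).ShortExact := by
  have hf := hS.moduleCat_injective_f
  have hg := hS.moduleCat_surjective_g
  have hex := (ShortComplex.ShortExact.moduleCat_exact_iff_function_exact _).1 hS.exact
  exact ModuleCat.shortComplex_shortExact _ hex hf hg

lemma F1_exact : PreservesFiniteLimits (F1 (A := A)) ∧ PreservesFiniteColimits (F1 (A := A)) :=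
  ((Functor.exact_tfae (F1 (A := A))).out 0 3).1 F1_shortExact
lemma F2_exact : PreservesFiniteLimits (F2 (A := A)) ∧ PreservesFiniteColimits (F2 (A := A)) :=
  ((Functor.exact_tfae (F2 (A := A))).out 0 3).1 F2_shortExact
instance : PreservesFiniteLimits (F1 (A := A)) := F1_exact.1
instance : PreservesFiniteColimits (F1 (A := A)) := F1_exact.2
instance : PreservesFiniteLimits (F2 (A := A)) := F2_exact.1
instance : PreservesFiniteColimits (F2 (A := A)) := F2_exact.2

end H965R5.Rig
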