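import Pool.Agent.H965R5.Rig.Ring
set_option autoImplicit false
universe u
namespace H965R5.Rig.LEND

theorem lend : H965R5.Rig.TaskLend.{u} := by
  intro E _ a g h H1 H2 H3 H4
  have diag : ∀ n j i : ℕ, j + n ≤ a + 1 → i + n ≤ a + 1 → h (j + n) (i + n) = h j i := by
    intro n
    induction n with
    | zero => intro j i _ _; rfl
    | succ n ih =>
      intro j i hj hi
      rw [← ih j i (by omega) (by omega), ← Nat.add_assoc, ← Nat.add_assoc,
        H3 (j + n) (i + n) (by omega) (by omega), H1 (j + n) (i + n) (by omega) (by omega)]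
  have hh : ∀ j i, j ≤ a + 1 → i ≤ a + 1 → h j i = if j = i then g 0 0 else 0 := by
    intro j i hj hi
    rcases lt_trichotomy j i with hlt | rfl | hlt
    · rw [if_neg (by omega)]
      have h1 := diag j 0 (i - j) (by omega) (by omega)
      rw [show 0 + j = j by omega, show i - j + j = i by omega] at h1
      rw [h1, show i - j = (i - j - 1) + 1 by omega]
      exact H4 _ (by omega)
    · rw [if_pos rfl]
      have h1 := diag j 0 0 (by omega) (by omega)
      rw [show 0 + j = j by omega] at h1
      rw [h1]
      exact H1 0 0 (by omega) (by omega)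
    · rw [if_neg (by omega)]
      have h1 := diag (a + 1 - j) j i (by omega) (by omega)
      rw [← h1, show j + (a + 1 - j) = a + 1 by omega]
      exact H2 _ (by omega)
  refine ⟨fun j i hj hi => ?_, hh⟩
  rw [← H1 j i hj hi]
  exact hh j i (by omega) (by omega)

end H965R5.Rig.LEND
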