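import Pool.Agent.H965R5.Rig.Ring

/-! Task LINJ of project H965-RIG (helper214). -/

set_option autoImplicit false

universe u

namespace H965R5.Rig.LINJ

theorem linj : H965R5.Rig.TaskLinj.{u} := by
  intro E _ a b hba g h h1 h2 h3 h4
  have hA : ∀ j, j ≤ b → ∀ i, i ≤ a → j < i → g j i = 0 := by
    intro j
    induction j with
    | zero =>
      intro hj i hi hlt
      obtain ⟨i, rfl⟩ : ∃ i', i = i' + 1 := ⟨i - 1, by omega⟩
      rw [← h1 0 (i + 1) hj hi]
      exact h4 i (by omega)
    | succ j ih =>
      intro hj i hi hlt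
      obtain ⟨i, rfl⟩ : ∃ i', i = i' + 1 := ⟨i - 1, by omega⟩
      rw [← h1 (j + 1) (i + 1) hj hi, h3 j i (by omega) (by omega)]
      exact ih (by omega) i (by omega) (by omega)
  have hB : ∀ d j i, j + d = b → i ≤ j → g j i = 0 := by
    intro d
    induction d with
    | zero =>
      intro j i hj hi
      rw [← h3 j i (by omega) (by omega)]
      have : j + 1 = b + 1 := by omega
      rw [this]
      exact h2 (i + 1) (by omega)
    | succ d ih =>
      intro j i hj hi
      rw [← h3 j i (by omega) (by omega), h1 (j + 1) (i + 1) (by omega) (by omega)]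
      exact ih (j + 1) (i + 1) (by omega) (by omega)
  have hg : ∀ j i, j ≤ b → i ≤ a → g j i = 0 := by
    intro j i hj hi
    rcases lt_or_ge j i with hlt | hge
    · exact hA j hj i hi hlt
    · exact hB (b - j) j i (by omega) hge
  refine ⟨hg, ?_⟩
  intro j i hj hi
  rcases Nat.lt_or_ge i (a + 1) with hi' | hi'
  · rcases Nat.lt_or_ge j (b + 1) with hj' | hj'
    · rw [h1 j i (by omega) (by omega)]
      exact hg j i (by omega) (by omega)
    · have : j = b + 1 := by omega
      rw [this]
      exact h2 i (by omega)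
  · have hia : i = a + 1 := by omega
    rw [hia]
    rcases Nat.eq_zero_or_pos j with hj0 | hj0
    · rw [hj0]
      exact h4 a le_rfl
    · obtain ⟨j, rfl⟩ : ∃ j', j = j' + 1 := ⟨j - 1, by omega⟩
      rw [h3 j a (by omega) le_rfl]
      exact hg j a (by omega) le_rfl

end H965R5.Rig.LINJ
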