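import Pool.Agent.H965R5.Rig.Ring
set_option autoImplicit false
universe u
namespace H965R5.Rig.LSURJ

open H965R5.Rig

variable {E : Type u} [AddCommGroup E]

/-- the defects -/
def w (u v : ℕ → ℕ → E) (j i : ℕ) : E := v j i - u j (i + 1)

/-- forward recursion along the diagonals -/
def up (u v : ℕ → ℕ → E) : ℕ → ℕ → E
  | _, 0 => 0
  | 0, i + 1 => w u v 0 i
  | j + 1, i + 1 => w u v (j + 1) i + up u v j i

/-- backward recursion along the diagonals -/
def dn (u v : ℕ → ℕ → E) (b : ℕ) : ℕ → ℕ → E
  | 0, _ => 0
  | k + 1, i => dn u v b k (i + 1) - w u v (b + 1 - k) i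

/-- the first solution -/
def gg (u v : ℕ → ℕ → E) (a b j i : ℕ) : E :=
  if b + 1 + i ≤ j + a then dn u v b (b + 1 - j) i else up u v j i

/-- the second solution -/
def hh (u v : ℕ → ℕ → E) (a b : ℕ) : ℕ → ℕ → E
  | j, 0 => if j ≤ b then u j 0 + gg u v a b j 0 else u j 0
  | 0, i + 1 => v 0 i
  | j + 1, i + 1 => v (j + 1) i + gg u v a b j i

theorem lsurj : TaskLsurj.{u} := by
  intro E _ a b hab u v
  refine ⟨gg u v a b, hh u v a b, ?_, ?_, ?_, ?_⟩
  · intro j i hj hi
    cases i with
    | zero =>
      simp only [hh, if_pos hj]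
      abel
    | succ i =>
      cases j with
      | zero =>
        have hc : ¬ (b + 1 + (i + 1) ≤ 0 + a) := by omega
        simp only [hh, gg, if_neg hc, up, w]
        abel
      | succ j =>
        simp only [hh]
        by_cases hc : b + 1 + i ≤ j + a
        · have hc' : b + 1 + (i + 1) ≤ j + 1 + a := by omega
          have e1 : b + 1 - j = (b - j) + 1 := by omega
          have e2 : b + 1 - (j + 1) = b - j := by omega
          have e3 : b + 1 - (b - j) = j + 1 := by omega
          simp only [gg, if_pos hc, if_pos hc']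
          rw [e1, e2]
          simp only [dn, e3, w]
          abel
        · have hc' : ¬ (b + 1 + (i + 1) ≤ j + 1 + a) := by omega
          simp only [gg, if_neg hc, if_neg hc', up, w]
          abel
  · intro i hi
    cases i with
    | zero =>
      have hc : ¬ (b + 1 ≤ b) := by omega
      simp only [hh, if_neg hc]
    | succ i =>
      have hc : b + 1 + i ≤ b + a := by omega
      have e1 : b + 1 - b = 0 + 1 := by omega
      simp only [hh, gg, if_pos hc]
      rw [e1]
      simp only [dn, w]
      have e2 : b + 1 - 0 = b + 1 := by omega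
      rw [e2]
      abel
  · intro j i _ _
    simp only [hh]
    abel
  · intro i _
    rfl

end H965R5.Rig.LSURJ
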