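import Pool.Agent.H965R5.Rig.Ring
set_option autoImplicit false
universe u
namespace H965R5.Rig

theorem linj_ok : TaskLinj.{u} := by
  intro E _ a b hab g h h1 h2 h3 h4
  have c1 : ∀ j, j ≤ b + 1 → ∀ i, i ≤ a + 1 → j < i → h j i = 0 := by
    intro j
    induction j with
    | zero =>
      intro _ i hi hji
      obtain ⟨i, rfl⟩ : ∃ k, i = k + 1 := ⟨i - 1, by omega⟩
      exact h4 i (by omega)
    | succ j ih =>
      intro hj i hi hji
      obtain ⟨i, rfl⟩ : ∃ k, i = k + 1 := ⟨i - 1, by omega⟩
      rw [h3 j i (by omega) (by omega), ← h1 j i (by omega) (by omega)]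
      exact ih (by omega) i (by omega) (by omega)
  have c2 : ∀ d j i, j + d = b + 1 → i ≤ j → h j i = 0 := by
    intro d
    induction d with
    | zero =>
      intro j i hj hi
      obtain rfl : j = b + 1 := by omega
      exact h2 i (by omega)
    | succ d ih =>
      intro j i hj hi
      rw [h1 j i (by omega) (by omega), ← h3 j i (by omega) (by omega)]
      exact ih (j + 1) (i + 1) (by omega) (by omega)
  have c3 : ∀ j i, j ≤ b + 1 → i ≤ a + 1 → h j i = 0 := by
    intro j i hj hi
    rcases Nat.lt_or_ge j i with hh | hh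
    · exact c1 j hj i hi hh
    · exact c2 (b + 1 - j) j i (by omega) hh
  refine ⟨fun j i hj hi => ?_, c3⟩
  rw [← h1 j i hj hi]
  exact c3 j i (by omega) (by omega)
end H965R5.Rig
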