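import Pool.Agent.H965R5.Rig.Ring
set_option autoImplicit false
set_option linter.unusedSectionVars false
universe w v u
open CategoryTheory CategoryTheory.Abelian CategoryTheory.Limits
namespace H965R5.Rig

section
variable {D : Type u} [Category.{v} D] [Preadditive D]

/-- a decomposition of `Z` into `n + 1` copies of `P` -/
structure Dec (P Z : D) (n : ℕ) where
  i : ℕ → (P ⟶ Z)
  o : ℕ → (Z ⟶ P)
  orth : ∀ a b, a ≤ n → b ≤ n → i a ≫ o b = if a = b then 𝟙 P else 0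
  jm : ∀ (W : D) (f g : W ⟶ Z), (∀ b, b ≤ n → f ≫ o b = g ≫ o b) → f = g

variable {P Z P' Z' : D} {n n' : ℕ}

lemma Dec.tot (d : Dec P Z n) : ∑ k ∈ Finset.range (n + 1), d.o k ≫ d.i k = 𝟙 Z := by
  apply d.jm
  intro b hb
  rw [Preadditive.sum_comp, Category.id_comp, Finset.sum_eq_single b]
  · rw [Category.assoc, d.orth b b hb hb, if_pos rfl, Category.comp_id]
  · intro k hk hkb
    rw [Category.assoc, d.orth k b (by have := Finset.mem_range.1 hk; omega) hb, if_neg hkb,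
      comp_zero]
  · intro h
    exact absurd (Finset.mem_range.2 (by omega)) h

lemma Dec.ext2 (d : Dec P Z n) (d' : Dec P' Z' n') (f g : Z ⟶ Z')
    (h : ∀ a b, a ≤ n → b ≤ n' → d.i a ≫ f ≫ d'.o b = d.i a ≫ g ≫ d'.o b) : f = g := by
  rw [← Category.id_comp f, ← Category.id_comp g, ← d.tot, Preadditive.sum_comp,
    Preadditive.sum_comp]
  refine Finset.sum_congr rfl ?_
  intro k hk
  rw [Category.assoc, Category.assoc]
  congr 1
  apply d'.jm
  intro b hb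
  rw [Category.assoc, Category.assoc]
  exact h k b (by have := Finset.mem_range.1 hk; omega) hb

lemma Dec.mat (d : Dec P Z n) (d' : Dec P' Z' n') (g : ℕ → ℕ → (P ⟶ P')) :
    ∃ G : Z ⟶ Z', ∀ a b, a ≤ n → b ≤ n' → d.i a ≫ G ≫ d'.o b = g b a := by
  refine ⟨∑ k ∈ Finset.range (n + 1), ∑ l ∈ Finset.range (n' + 1), d.o k ≫ g l k ≫ d'.i l, ?_⟩
  intro a b ha hb
  simp only [Preadditive.sum_comp, Preadditive.comp_sum, Category.assoc]
  rw [Finset.sum_eq_single a, Finset.sum_eq_single b]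
  · rw [d'.orth b b hb hb, if_pos rfl, Category.comp_id, ← Category.assoc, d.orth a a ha ha,
      if_pos rfl, Category.id_comp]
  · intro l hl hlb
    rw [d'.orth l b (by have := Finset.mem_range.1 hl; omega) hb, if_neg hlb, comp_zero,
      comp_zero, comp_zero]
  · intro h
    exact absurd (Finset.mem_range.2 (by omega)) h
  · intro k hk hka
    refine Finset.sum_eq_zero fun l _ => ?_
    rw [← Category.assoc (d.i a), d.orth a k ha (by have := Finset.mem_range.1 hk; omega),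
      if_neg (Ne.symm hka), zero_comp]
  · intro h
    exact absurd (Finset.mem_range.2 (by omega)) h

/-- the data of a Kronecker representation made of copies of `P` -/
structure RD (P Z1 Z2 : D) (x y : Z1 ⟶ Z2) (n : ℕ) where
  d1 : Dec P Z1 n
  d2 : Dec P Z2 (n + 1)
  xo : ∀ j, j ≤ n → x ≫ d2.o j = d1.o j
  xo' : x ≫ d2.o (n + 1) = 0
  yo : ∀ j, j ≤ n → y ≫ d2.o (j + 1) = d1.o j
  yo' : y ≫ d2.o 0 = 0

variable {Z1 Z2 Z1' Z2' : D} {x y : Z1 ⟶ Z2} {x' y' : Z1' ⟶ Z2'} {a b : ℕ}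

lemma RD.ix (R : RD P Z1 Z2 x y a) (i : ℕ) (hi : i ≤ a) : R.d1.i i ≫ x = R.d2.i i := by
  apply R.d2.jm
  intro j hj
  rw [Category.assoc, R.d2.orth i j (by omega) hj]
  rcases Nat.lt_or_ge j (a + 1) with h | h
  · rw [R.xo j (by omega), R.d1.orth i j hi (by omega)]
  · obtain rfl : j = a + 1 := by omega
    rw [R.xo', comp_zero, if_neg (by omega)]

lemma RD.iy (R : RD P Z1 Z2 x y a) (i : ℕ) (hi : i ≤ a) : R.d1.i i ≫ y = R.d2.i (i + 1) := by
  apply R.d2.jm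
  intro j hj
  rw [Category.assoc, R.d2.orth (i + 1) j (by omega) hj]
  rcases j with _ | j
  · rw [R.yo', comp_zero, if_neg (by omega)]
  · rw [R.yo j (by omega), R.d1.orth i j hi (by omega)]
    simp only [Nat.add_right_cancel_iff]

theorem RD.surj (hL : TaskLsurj.{v}) (R : RD P Z1 Z2 x y a) (R' : RD P' Z1' Z2' x' y' b)
    (hab : a ≤ b) (s t : Z1 ⟶ Z2') :
    ∃ (G : Z1 ⟶ Z1') (H : Z2 ⟶ Z2'), s = x ≫ H - G ≫ x' ∧ t = y ≫ H - G ≫ y' := by
  obtain ⟨g, h, e1, e2, e3, e4⟩ := hL (P ⟶ P') a b hab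
    (fun j i => R.d1.i i ≫ s ≫ R'.d2.o j) (fun j i => R.d1.i i ≫ t ≫ R'.d2.o j)
  obtain ⟨G, hG⟩ := R.d1.mat R'.d1 g
  obtain ⟨H, hH⟩ := R.d2.mat R'.d2 h
  refine ⟨G, H, ?_, ?_⟩
  · apply R.d1.ext2 R'.d2
    intro i j hi hj
    rw [Preadditive.sub_comp, Preadditive.comp_sub, Category.assoc, Category.assoc,
      ← Category.assoc (R.d1.i i) x, R.ix i hi, hH i j (by omega) hj]
    rcases Nat.lt_or_ge j (b + 1) with hj' | hj'
    · rw [R'.xo j (by omega), hG i j hi (by omega)]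
      exact e1 j i (by omega) hi
    · obtain rfl : j = b + 1 := by omega
      rw [R'.xo', comp_zero, comp_zero, sub_zero]
      exact e2 i hi
  · apply R.d1.ext2 R'.d2
    intro i j hi hj
    rw [Preadditive.sub_comp, Preadditive.comp_sub, Category.assoc, Category.assoc,
      ← Category.assoc (R.d1.i i) y, R.iy i hi, hH (i + 1) j (by omega) hj]
    rcases j with _ | j
    · rw [R'.yo', comp_zero, comp_zero, sub_zero]
      exact e4 i hi
    · rw [R'.yo j (by omega), hG i j hi (by omega)]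
      exact e3 j i (by omega) hi

theorem RD.endo (hL : TaskLend.{v}) (R : RD P Z1 Z2 x y a) (G : Z1 ⟶ Z1) (H : Z2 ⟶ Z2)
    (hx : G ≫ x = x ≫ H) (hy : G ≫ y = y ≫ H) :
    ∃ c : P ⟶ P, (∀ i j, i ≤ a → j ≤ a → R.d1.i i ≫ G ≫ R.d1.o j = if j = i then c else 0) ∧
      (∀ i j, i ≤ a + 1 → j ≤ a + 1 → R.d2.i i ≫ H ≫ R.d2.o j = if j = i then c else 0) := by
  obtain ⟨h1, h2⟩ := hL (P ⟶ P) a (fun j i => R.d1.i i ≫ G ≫ R.d1.o j)
    (fun j i => R.d2.i i ≫ H ≫ R.d2.o j)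
    (by
      intro j i hj hi
      rw [← R.ix i hi, Category.assoc, ← Category.assoc x, ← hx, Category.assoc, R.xo j hj])
    (by
      intro i hi
      rw [← R.ix i hi, Category.assoc, ← Category.assoc x, ← hx, Category.assoc, R.xo']
      simp)
    (by
      intro j i hj hi
      rw [← R.iy i hi, Category.assoc, ← Category.assoc y, ← hy, Category.assoc, R.yo j hj])
    (by
      intro i hi
      rw [← R.iy i hi, Category.assoc, ← Category.assoc y, ← hy, Category.assoc, R.yo']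
      simp)
  exact ⟨_, fun i j hi hj => h1 j i hj hi, fun i j hi hj => h2 j i hj hi⟩
end

section
variable {C : Type u} [Category.{v} C] [Abelian C] [HasExt.{w} C]
variable {P Z P' Z' : C} {n n' : ℕ}

lemma Dec.ext_left (d : Dec P Z n) (p : ℕ) (ξ : Ext.{w} Z Z' p)
    (h : ∀ a, a ≤ n → (Ext.mk₀ (d.i a)).comp ξ (zero_add p) = 0) : ξ = 0 := by
  let φ : (Z ⟶ Z) →+ Ext.{w} Z Z' p :=
    AddMonoidHom.mk' (fun f => (Ext.mk₀ f).comp ξ (zero_add p)) (by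
      intro f g
      rw [Ext.mk₀_add, Ext.add_comp])
  have h1 : φ (𝟙 Z) = ξ := Ext.mk₀_id_comp ξ
  rw [← h1, ← d.tot, map_sum]
  refine Finset.sum_eq_zero fun k hk => ?_
  change (Ext.mk₀ (d.o k ≫ d.i k)).comp ξ (zero_add p) = 0
  rw [← Ext.mk₀_comp_mk₀_assoc, h k (by have := Finset.mem_range.1 hk; omega)]
  simp

lemma Dec.ext_right (d : Dec P' Z' n') (p : ℕ) (ξ : Ext.{w} Z Z' p)
    (h : ∀ b, b ≤ n' → ξ.comp (Ext.mk₀ (d.o b)) (add_zero p) = 0) : ξ = 0 := by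
  let φ : (Z' ⟶ Z') →+ Ext.{w} Z Z' p :=
    AddMonoidHom.mk' (fun f => ξ.comp (Ext.mk₀ f) (add_zero p)) (by
      intro f g
      rw [Ext.mk₀_add, Ext.comp_add])
  have h1 : φ (𝟙 Z') = ξ := Ext.comp_mk₀_id ξ
  rw [← h1, ← d.tot, map_sum]
  refine Finset.sum_eq_zero fun k hk => ?_
  change ξ.comp (Ext.mk₀ (d.o k ≫ d.i k)) (add_zero p) = 0
  rw [← Ext.mk₀_comp_mk₀, ← Ext.comp_assoc ξ _ _ (add_zero p) (zero_add 0) (by omega),
    h k (by have := Finset.mem_range.1 hk; omega)]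
  simp

lemma Dec.ext_zero (d : Dec P Z n) (d' : Dec P' Z' n') (p : ℕ) (ξ : Ext.{w} Z Z' p)
    (h : ∀ a b, a ≤ n → b ≤ n' →
      (Ext.mk₀ (d.i a)).comp (ξ.comp (Ext.mk₀ (d'.o b)) (add_zero p)) (zero_add p) = 0) :
    ξ = 0 :=
  d'.ext_right p ξ fun b hb => d.ext_left p _ fun a ha => h a b ha hb

lemma Dec.ext_all (d : Dec P Z n) (d' : Dec P' Z' n') (p : ℕ)
    (h : ∀ z : Ext.{w} P P' p, z = 0) (ξ : Ext.{w} Z Z' p) : ξ = 0 :=
  d.ext_zero d' p ξ fun _ _ _ _ => h _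

variable {Z1 Z2 Z1' Z2' : C} {x y : Z1 ⟶ Z2} {x' y' : Z1' ⟶ Z2'} {a b : ℕ}

theorem RD.inj (hL : TaskLinj.{w}) (R : RD P Z1 Z2 x y a) (R' : RD P' Z1' Z2' x' y' b)
    (hab : b < a) (p : ℕ) (ξ1 : Ext.{w} Z1 Z1' p) (ξ2 : Ext.{w} Z2 Z2' p)
    (hx : ξ1.comp (Ext.mk₀ x') (add_zero p) = (Ext.mk₀ x).comp ξ2 (zero_add p))
    (hy : ξ1.comp (Ext.mk₀ y') (add_zero p) = (Ext.mk₀ y).comp ξ2 (zero_add p)) :
    ξ1 = 0 ∧ ξ2 = 0 := by
  have key : ∀ (x : Z1 ⟶ Z2) (x' : Z1' ⟶ Z2')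
      (_ : ξ1.comp (Ext.mk₀ x') (add_zero p) = (Ext.mk₀ x).comp ξ2 (zero_add p))
      (f : P ⟶ Z1) (o : Z2' ⟶ P'),
      (Ext.mk₀ (f ≫ x)).comp (ξ2.comp (Ext.mk₀ o) (add_zero p)) (zero_add p) =
      (Ext.mk₀ f).comp (ξ1.comp (Ext.mk₀ (x' ≫ o)) (add_zero p)) (zero_add p) := by
    intro x x' hx f o
    rw [← Ext.mk₀_comp_mk₀_assoc]
    congr 1
    rw [← Ext.comp_assoc (Ext.mk₀ x) ξ2 (Ext.mk₀ o) (zero_add p) (add_zero p) (by omega), ← hx,
      Ext.comp_assoc ξ1 (Ext.mk₀ x') (Ext.mk₀ o) (add_zero p) (zero_add 0) (by omega),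
      Ext.mk₀_comp_mk₀]
  obtain ⟨h1, h2⟩ := hL (Ext.{w} P P' p) a b hab
    (fun j i => (Ext.mk₀ (R.d1.i i)).comp (ξ1.comp (Ext.mk₀ (R'.d1.o j)) (add_zero p))
      (zero_add p))
    (fun j i => (Ext.mk₀ (R.d2.i i)).comp (ξ2.comp (Ext.mk₀ (R'.d2.o j)) (add_zero p))
      (zero_add p))
    (by
      intro j i hj hi
      rw [← R.ix i hi, key x x' hx, R'.xo j hj])
    (by
      intro i hi
      rw [← R.ix i hi, key x x' hx, R'.xo']
      simp)
    (by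
      intro j i hj hi
      rw [← R.iy i hi, key y y' hy, R'.yo j hj])
    (by
      intro i hi
      rw [← R.iy i hi, key y y' hy, R'.yo']
      simp)
  exact ⟨R.d1.ext_zero R'.d1 p ξ1 fun i j hi hj => h1 j i hj hi,
    R.d2.ext_zero R'.d2 p ξ2 fun i j hi hj => h2 j i hj hi⟩
end
end H965R5.Rig
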