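import Pool.Agent.H965R5.Rig.Van
import Pool.Agent.H965R5.Rig.RepAbs
set_option autoImplicit false
set_option linter.unusedSectionVars false
universe u
open CategoryTheory CategoryTheory.Abelian CategoryTheory.Limits
namespace H965R5.Rig
open Kr

section
variable (n : ℕ) (P : Type u) [AddCommGroup P]

/-- the underlying group of the representation -/
def TS : AddSubgroup ((ℕ → P) × (ℕ → P)) where
  carrier := {m | (∀ i, n < i → m.1 i = 0) ∧ (∀ i, n + 1 < i → m.2 i = 0)}
  add_mem' := by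
    rintro x y ⟨h1, h2⟩ ⟨h3, h4⟩
    exact ⟨fun i hi => by change x.1 i + y.1 i = 0; rw [h1 i hi, h3 i hi, add_zero],
      fun i hi => by change x.2 i + y.2 i = 0; rw [h2 i hi, h4 i hi, add_zero]⟩
  zero_mem' := ⟨fun _ _ => rfl, fun _ _ => rfl⟩
  neg_mem' := by
    rintro x ⟨h1, h2⟩
    exact ⟨fun i hi => by change -x.1 i = 0; rw [h1 i hi, neg_zero],
      fun i hi => by change -x.2 i = 0; rw [h2 i hi, neg_zero]⟩

def T : Type u := TS n P
instance : AddCommGroup (T n P) := inferInstanceAs (AddCommGroup (TS n P))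
end

variable {A : Type u} [Ring A]

/-- the shift -/
def shf {P : Type u} [AddCommGroup P] (p : ℕ → P) : ℕ → P
  | 0 => 0
  | j + 1 => p j

lemma shf_smul {P : Type u} [AddCommGroup P] [Module A P] (a : A) (p : ℕ → P) (i : ℕ) :
    shf (fun i => a • p i) i = a • shf p i := by
  cases i with
  | zero => exact (smul_zero a).symm
  | succ j => rfl
lemma shf_add {P : Type u} [AddCommGroup P] (p q : ℕ → P) (i : ℕ) :
    shf (fun i => p i + q i) i = shf p i + shf q i := by
  cases i with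
  | zero => exact (add_zero 0).symm
  | succ j => rfl
lemma shf_zero {P : Type u} [AddCommGroup P] (i : ℕ) :
    shf (fun _ => (0 : P)) i = 0 := by
  cases i with
  | zero => rfl
  | succ j => rfl

lemma T_ext {n : ℕ} {P : Type u} [AddCommGroup P] {m m' : T n P}
    (h1 : ∀ i, m.1.1 i = m'.1.1 i) (h2 : ∀ i, m.1.2 i = m'.1.2 i) : m = m' :=
  Subtype.ext (Prod.ext (funext h1) (funext h2))

section
variable (n : ℕ) (P : Type u) [AddCommGroup P] [Module A P]
instance : Module (Kr A) (T n P) where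
  smul r m := ⟨(fun i => r.a • m.1.1 i,
    fun i => r.b • m.1.2 i + r.u • m.1.1 i + r.v • shf m.1.1 i), by
    refine ⟨fun i hi => ?_, fun i hi => ?_⟩
    · change r.a • m.1.1 i = 0
      rw [m.2.1 i hi, smul_zero]
    · change r.b • m.1.2 i + r.u • m.1.1 i + r.v • shf m.1.1 i = 0
      obtain ⟨j, rfl⟩ : ∃ j, i = j + 1 := ⟨i - 1, by omega⟩
      change r.b • m.1.2 (j + 1) + r.u • m.1.1 (j + 1) + r.v • m.1.1 j = 0
      rw [m.2.2 (j + 1) hi, m.2.1 (j + 1) (by omega), m.2.1 j (by omega)]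
      simp⟩
  one_smul m := T_ext (fun i => one_smul A (m.1.1 i)) (fun i => by
    change (1 : A) • m.1.2 i + (0 : A) • m.1.1 i + (0 : A) • shf m.1.1 i = m.1.2 i
    simp)
  mul_smul r s m := T_ext (fun i => mul_smul r.a s.a (m.1.1 i)) (fun i => by
    change (r.b * s.b) • m.1.2 i + (r.b * s.u + r.u * s.a) • m.1.1 i +
      (r.b * s.v + r.v * s.a) • shf m.1.1 i =
      r.b • (s.b • m.1.2 i + s.u • m.1.1 i + s.v • shf m.1.1 i) + r.u • (s.a • m.1.1 i) +
        r.v • shf (fun i => s.a • m.1.1 i) i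
    rw [shf_smul]
    simp only [mul_smul, add_smul, smul_add]
    abel)
  smul_zero r := T_ext (fun i => smul_zero r.a) (fun i => by
    change r.b • (0 : P) + r.u • (0 : P) + r.v • shf (fun _ => (0 : P)) i = 0
    rw [shf_zero]
    simp)
  smul_add r m m' := T_ext (fun i => smul_add r.a (m.1.1 i) (m'.1.1 i)) (fun i => by
    change r.b • (m.1.2 i + m'.1.2 i) + r.u • (m.1.1 i + m'.1.1 i) +
      r.v • shf (fun i => m.1.1 i + m'.1.1 i) i =
      (r.b • m.1.2 i + r.u • m.1.1 i + r.v • shf m.1.1 i) +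
      (r.b • m'.1.2 i + r.u • m'.1.1 i + r.v • shf m'.1.1 i)
    rw [shf_add]
    simp only [smul_add]
    abel)
  add_smul r s m := T_ext (fun i => add_smul r.a s.a (m.1.1 i)) (fun i => by
    change (r.b + s.b) • m.1.2 i + (r.u + s.u) • m.1.1 i + (r.v + s.v) • shf m.1.1 i =
      (r.b • m.1.2 i + r.u • m.1.1 i + r.v • shf m.1.1 i) +
      (s.b • m.1.2 i + s.u • m.1.1 i + s.v • shf m.1.1 i)
    simp only [add_smul]
    abel)
  zero_smul m := T_ext (fun i => zero_smul A (m.1.1 i)) (fun i => by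
    change (0 : A) • m.1.2 i + (0 : A) • m.1.1 i + (0 : A) • shf m.1.1 i = 0
    simp)
end

section
variable {n : ℕ} {P : Type u} [AddCommGroup P] [Module A P]
lemma T_smul1 (r : Kr A) (m : T n P) (i : ℕ) : (r • m).1.1 i = r.a • m.1.1 i := rfl
lemma T_smul2 (r : Kr A) (m : T n P) (i : ℕ) :
    (r • m).1.2 i = r.b • m.1.2 i + r.u • m.1.1 i + r.v • shf m.1.1 i := rfl
lemma T_add1 (m m' : T n P) (i : ℕ) : (m + m').1.1 i = m.1.1 i + m'.1.1 i := rfl
lemma T_add2 (m m' : T n P) (i : ℕ) : (m + m').1.2 i = m.1.2 i + m'.1.2 i := rfl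

lemma q1z (m : Q1 A (T n P)) (j : ℕ) : m.1.1.2 j = 0 := by
  have h := congrArg (fun z : T n P => z.1.2 j) (PM1_prop m)
  simp only [T_smul2, e1, zero_smul, add_zero] at h
  exact h.symm
lemma q2z (m : Q2 A (T n P)) (j : ℕ) : m.1.1.1 j = 0 := by
  have h := congrArg (fun z : T n P => z.1.1 j) (PM2_prop m)
  simp only [T_smul1, e2, zero_smul] at h
  exact h.symm

lemma Q1_ext {m m' : Q1 A (T n P)} (h : ∀ j, j ≤ n → m.1.1.1 j = m'.1.1.1 j) : m = m' := by
  apply Subtype.ext
  refine T_ext (fun i => ?_) (fun i => ?_)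
  · rcases Nat.lt_or_ge n i with hi | hi
    · rw [m.1.2.1 i hi, m'.1.2.1 i hi]
    · exact h i hi
  · rw [q1z, q1z]
lemma Q2_ext {m m' : Q2 A (T n P)} (h : ∀ j, j ≤ n + 1 → m.1.1.2 j = m'.1.1.2 j) : m = m' := by
  apply Subtype.ext
  refine T_ext (fun i => ?_) (fun i => ?_)
  · rw [q2z, q2z]
  · rcases Nat.lt_or_ge (n + 1) i with hi | hi
    · rw [m.1.2.2 i hi, m'.1.2.2 i hi]
    · exact h i hi
end

/-- cut off single function -/
def sg {P : Type u} [AddCommGroup P] (n i : ℕ) (p : P) : ℕ → P :=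
  fun j => if j = i ∧ j ≤ n then p else 0

section
variable (n : ℕ) (P : Type u) [AddCommGroup P] [Module A P]
def in1 (i : ℕ) : P →ₗ[A] Q1 A (T n P) where
  toFun p := ⟨⟨(sg n i p, fun _ => 0), fun j hj => if_neg (by omega), fun _ _ => rfl⟩,
    T_ext (fun j => one_smul A _) (fun j => by
      change (0 : A) • (0 : P) + (0 : A) • sg n i p j + (0 : A) • shf (sg n i p) j = 0
      simp)⟩
  map_add' p q := Q1_ext fun j _ => by
    change sg n i (p + q) j = sg n i p j + sg n i q j
    unfold sg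
    split_ifs <;> simp
  map_smul' a p := Q1_ext fun j _ => by
    change sg n i (a • p) j = a • sg n i p j
    unfold sg
    split_ifs <;> simp
def in2 (i : ℕ) : P →ₗ[A] Q2 A (T n P) where
  toFun p := ⟨⟨(fun _ => 0, sg (n + 1) i p), fun _ _ => rfl, fun j hj => if_neg (by omega)⟩,
    T_ext (fun j => by
      change (0 : A) • (0 : P) = 0
      simp) (fun j => by
      change (1 : A) • sg (n + 1) i p j + (0 : A) • (0 : P) +
        (0 : A) • shf (fun _ => (0 : P)) j = sg (n + 1) i p j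
      simp)⟩
  map_add' p q := Q2_ext fun j _ => by
    change sg (n + 1) i (p + q) j = sg (n + 1) i p j + sg (n + 1) i q j
    unfold sg
    split_ifs <;> simp
  map_smul' a p := Q2_ext fun j _ => by
    change sg (n + 1) i (a • p) j = a • sg (n + 1) i p j + (0 : A) • (0 : P) +
      (0 : A) • shf (fun _ => (0 : P)) j
    rw [zero_smul, zero_smul, add_zero, add_zero]
    unfold sg
    split_ifs <;> simp
def out1 (j : ℕ) : Q1 A (T n P) →ₗ[A] P where
  toFun m := m.1.1.1 j
  map_add' m m' := rfl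
  map_smul' a m := rfl
def out2 (j : ℕ) : Q2 A (T n P) →ₗ[A] P where
  toFun m := m.1.1.2 j
  map_add' m m' := rfl
  map_smul' a m := by
    change a • m.1.1.2 j + (0 : A) • m.1.1.1 j + (0 : A) • shf m.1.1.1 j = a • m.1.1.2 j
    rw [zero_smul, zero_smul, add_zero, add_zero]
end

/-- the representation -/
def TM (n : ℕ) (P : ModuleCat.{u} A) : ModuleCat.{u} (Kr A) := ModuleCat.of (Kr A) (T n P)

def dd1 (n : ℕ) (P : ModuleCat.{u} A) : Dec P ((E1 (A := A)).obj (TM n P)) n where
  i k := ModuleCat.ofHom (in1 n P k)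
  o k := ModuleCat.ofHom (out1 n P k)
  orth a b ha hb := by
    ext p
    change (if b = a ∧ b ≤ n then p else 0) = _
    by_cases h : a = b
    · rw [if_pos ⟨h.symm, hb⟩, if_pos h]
      rfl
    · rw [if_neg (fun h2 => h h2.1.symm), if_neg h]
      rfl
  jm W f g h := by
    ext w
    exact Q1_ext fun j hj => congrArg (fun z => z.hom w) (h j hj)

def dd2 (n : ℕ) (P : ModuleCat.{u} A) : Dec P ((E2 (A := A)).obj (TM n P)) (n + 1) where
  i k := ModuleCat.ofHom (in2 n P k)
  o k := ModuleCat.ofHom (out2 n P k)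
  orth a b ha hb := by
    ext p
    change (if b = a ∧ b ≤ n + 1 then p else 0) = _
    by_cases h : a = b
    · rw [if_pos ⟨h.symm, hb⟩, if_pos h]
      rfl
    · rw [if_neg (fun h2 => h h2.1.symm), if_neg h]
      rfl
  jm W f g h := by
    ext w
    exact Q2_ext fun j hj => congrArg (fun z => z.hom w) (h j hj)

lemma ax_T {n : ℕ} {P : Type u} [AddCommGroup P] [Module A P] (m : T n P) (j : ℕ) :
    ((ax : Kr A) • m).1.2 j = m.1.1 j := by
  rw [T_smul2]
  simp [ax]
lemma ay_T {n : ℕ} {P : Type u} [AddCommGroup P] [Module A P] (m : T n P) (j : ℕ) :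
    ((ay : Kr A) • m).1.2 j = shf m.1.1 j := by
  rw [T_smul2]
  simp [ay]

def rd (n : ℕ) (P : ModuleCat.{u} A) :
    RD P ((E1 (A := A)).obj (TM n P)) ((E2 (A := A)).obj (TM n P)) (tx.app (TM n P))
      (ty.app (TM n P)) n where
  d1 := dd1 n P
  d2 := dd2 n P
  xo j _ := by
    ext m
    exact ax_T (A := A) (P := P) m.1 j
  xo' := by
    ext m
    exact (ax_T (A := A) (P := P) m.1 (n + 1)).trans (m.1.2.1 (n + 1) (by omega))
  yo j _ := by
    ext m
    exact ay_T (A := A) (P := P) m.1 (j + 1)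
  yo' := by
    ext m
    exact ay_T (A := A) (P := P) m.1 0

end H965R5.Rig
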