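import Mathlib
set_option autoImplicit false
universe u
namespace H965R5.Rig

/-- Kronecker ring over `A`: matrices `(b u v; 0 a 0; 0 0 a)` -/
@[ext] structure Kr (A : Type u) where
  a : A
  b : A
  u : A
  v : A

variable {A : Type u} [Ring A]

namespace Kr
instance : Zero (Kr A) := ⟨⟨0, 0, 0, 0⟩⟩
instance : One (Kr A) := ⟨⟨1, 1, 0, 0⟩⟩
instance : Add (Kr A) := ⟨fun x y => ⟨x.a + y.a, x.b + y.b, x.u + y.u, x.v + y.v⟩⟩
instance : Neg (Kr A) := ⟨fun x => ⟨-x.a, -x.b, -x.u, -x.v⟩⟩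
instance : Sub (Kr A) := ⟨fun x y => ⟨x.a - y.a, x.b - y.b, x.u - y.u, x.v - y.v⟩⟩
instance : Mul (Kr A) := ⟨fun x y => ⟨x.a * y.a, x.b * y.b, x.b * y.u + x.u * y.a,
  x.b * y.v + x.v * y.a⟩⟩
instance : SMul ℕ (Kr A) := ⟨fun n x => ⟨n • x.a, n • x.b, n • x.u, n • x.v⟩⟩
instance : SMul ℤ (Kr A) := ⟨fun n x => ⟨n • x.a, n • x.b, n • x.u, n • x.v⟩⟩

@[simp] lemma zero_a : (0 : Kr A).a = 0 := rfl
@[simp] lemma zero_b : (0 : Kr A).b = 0 := rfl
@[simp] lemma zero_u : (0 : Kr A).u = 0 := rfl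
@[simp] lemma zero_v : (0 : Kr A).v = 0 := rfl
@[simp] lemma one_a : (1 : Kr A).a = 1 := rfl
@[simp] lemma one_b : (1 : Kr A).b = 1 := rfl
@[simp] lemma one_u : (1 : Kr A).u = 0 := rfl
@[simp] lemma one_v : (1 : Kr A).v = 0 := rfl
@[simp] lemma add_a (x y : Kr A) : (x + y).a = x.a + y.a := rfl
@[simp] lemma add_b (x y : Kr A) : (x + y).b = x.b + y.b := rfl
@[simp] lemma add_u (x y : Kr A) : (x + y).u = x.u + y.u := rfl
@[simp] lemma add_v (x y : Kr A) : (x + y).v = x.v + y.v := rfl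
@[simp] lemma neg_a (x : Kr A) : (-x).a = -x.a := rfl
@[simp] lemma neg_b (x : Kr A) : (-x).b = -x.b := rfl
@[simp] lemma neg_u (x : Kr A) : (-x).u = -x.u := rfl
@[simp] lemma neg_v (x : Kr A) : (-x).v = -x.v := rfl
@[simp] lemma sub_a (x y : Kr A) : (x - y).a = x.a - y.a := rfl
@[simp] lemma sub_b (x y : Kr A) : (x - y).b = x.b - y.b := rfl
@[simp] lemma sub_u (x y : Kr A) : (x - y).u = x.u - y.u := rfl
@[simp] lemma sub_v (x y : Kr A) : (x - y).v = x.v - y.v := rfl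
@[simp] lemma mul_a (x y : Kr A) : (x * y).a = x.a * y.a := rfl
@[simp] lemma mul_b (x y : Kr A) : (x * y).b = x.b * y.b := rfl
@[simp] lemma mul_u (x y : Kr A) : (x * y).u = x.b * y.u + x.u * y.a := rfl
@[simp] lemma mul_v (x y : Kr A) : (x * y).v = x.b * y.v + x.v * y.a := rfl
@[simp] lemma nsmul_a (n : ℕ) (x : Kr A) : (n • x).a = n • x.a := rfl
@[simp] lemma nsmul_b (n : ℕ) (x : Kr A) : (n • x).b = n • x.b := rfl
@[simp] lemma nsmul_u (n : ℕ) (x : Kr A) : (n • x).u = n • x.u := rfl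
@[simp] lemma nsmul_v (n : ℕ) (x : Kr A) : (n • x).v = n • x.v := rfl
@[simp] lemma zsmul_a (n : ℤ) (x : Kr A) : (n • x).a = n • x.a := rfl
@[simp] lemma zsmul_b (n : ℤ) (x : Kr A) : (n • x).b = n • x.b := rfl
@[simp] lemma zsmul_u (n : ℤ) (x : Kr A) : (n • x).u = n • x.u := rfl
@[simp] lemma zsmul_v (n : ℤ) (x : Kr A) : (n • x).v = n • x.v := rfl

/-- coordinates -/
def toProd (x : Kr A) : A × A × A × A := (x.a, x.b, x.u, x.v)

lemma toProd_injective : Function.Injective (toProd : Kr A → _) := by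
  intro x y h
  simp only [toProd, Prod.mk.injEq] at h
  ext <;> tauto

instance : AddCommGroup (Kr A) :=
  toProd_injective.addCommGroup toProd rfl (fun _ _ => rfl) (fun _ => rfl) (fun _ _ => rfl)
    (fun _ _ => rfl) (fun _ _ => rfl)

instance : Ring (Kr A) :=
  { (inferInstance : AddCommGroup (Kr A)) with
    mul_assoc := fun x y z => by ext <;> simp [mul_assoc, mul_add, add_mul, add_assoc]
    one_mul := fun x => by ext <;> simp
    mul_one := fun x => by ext <;> simp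
    zero_mul := fun x => by ext <;> simp
    mul_zero := fun x => by ext <;> simp
    left_distrib := fun x y z => by ext <;> simp [mul_add, add_mul] <;> abel
    right_distrib := fun x y z => by ext <;> simp [mul_add, add_mul] <;> abel }

variable {K : Type u} [Field K] [Algebra K A]

/-- the diagonal embedding -/
def iota : A →+* Kr A where
  toFun a := ⟨a, a, 0, 0⟩
  map_one' := rfl
  map_mul' x y := by ext <;> simp
  map_zero' := rfl
  map_add' x y := by ext <;> simp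

@[simp] lemma iota_a (x : A) : (iota x).a = x := rfl
@[simp] lemma iota_b (x : A) : (iota x).b = x := rfl
@[simp] lemma iota_u (x : A) : (iota x).u = 0 := rfl
@[simp] lemma iota_v (x : A) : (iota x).v = 0 := rfl

instance : Algebra K (Kr A) :=
  RingHom.toAlgebra' (iota.comp (algebraMap K A)) (fun c x => by
    ext <;> simp [Algebra.commutes])

lemma algebraMap_eq (c : K) : algebraMap K (Kr A) c = iota (algebraMap K A c) := rfl

end Kr

/-! ### tasks -/

/-- elementary linear algebra, injectivity -/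
def TaskLinj : Prop := ∀ (E : Type u) [AddCommGroup E] (a b : ℕ), b < a → ∀ g h : ℕ → ℕ → E,
  (∀ j i, j ≤ b → i ≤ a → h j i = g j i) → (∀ i, i ≤ a → h (b + 1) i = 0) →
  (∀ j i, j ≤ b → i ≤ a → h (j + 1) (i + 1) = g j i) → (∀ i, i ≤ a → h 0 (i + 1) = 0) →
  (∀ j i, j ≤ b → i ≤ a → g j i = 0) ∧ (∀ j i, j ≤ b + 1 → i ≤ a + 1 → h j i = 0)

/-- elementary linear algebra, surjectivity -/
def TaskLsurj : Prop := ∀ (E : Type u) [AddCommGroup E] (a b : ℕ), a ≤ b → ∀ u v : ℕ → ℕ → E,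
  ∃ g h : ℕ → ℕ → E, (∀ j i, j ≤ b → i ≤ a → u j i = h j i - g j i) ∧
    (∀ i, i ≤ a → u (b + 1) i = h (b + 1) i) ∧
    (∀ j i, j ≤ b → i ≤ a → v (j + 1) i = h (j + 1) (i + 1) - g j i) ∧
    (∀ i, i ≤ a → v 0 i = h 0 (i + 1))

/-- elementary linear algebra, endomorphisms -/
def TaskLend : Prop := ∀ (E : Type u) [AddCommGroup E] (a : ℕ), ∀ g h : ℕ → ℕ → E,
  (∀ j i, j ≤ a → i ≤ a → h j i = g j i) → (∀ i, i ≤ a → h (a + 1) i = 0) →
  (∀ j i, j ≤ a → i ≤ a → h (j + 1) (i + 1) = g j i) → (∀ i, i ≤ a → h 0 (i + 1) = 0) →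
  (∀ j i, j ≤ a → i ≤ a → g j i = if j = i then g 0 0 else 0) ∧
  (∀ j i, j ≤ a + 1 → i ≤ a + 1 → h j i = if j = i then g 0 0 else 0)

/-- finite dimension of the Kronecker ring -/
def TaskFin : Prop := ∀ (K A : Type u) [Field K] [Ring A] [Algebra K A], Module.Finite K A →
  Module.Finite K (Kr A)

/-- the Kronecker ring is connected -/
def TaskConn : Prop := ∀ (A : Type u) [Ring A],
  (∀ c : A, c * c = c → (∀ x, c * x = x * c) → c = 0 ∨ c = 1) →
  ∀ c : Kr A, c * c = c → (∀ x, c * x = x * c) → c = 0 ∨ c = 1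

/-- the Kronecker ring is not semisimple -/
def TaskSS : Prop := ∀ (A : Type u) [Ring A] [Nontrivial A], ¬ IsSemisimpleRing (Kr A)

end H965R5.Rig
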