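import Pool.Agent.H965R5.Rig.Ring
set_option autoImplicit false
universe u
namespace H965R5.Rig.SS

open H965R5.Rig

theorem ss_ok : TaskSS.{u} := by
  intro A _ _ h
  have h' : IsSemisimpleModule (Kr A) (Kr A) := h
  let t : Kr A := ⟨0, 0, 1, 0⟩
  obtain ⟨J, hJ⟩ := exists_isCompl (Submodule.span (Kr A) {t})
  have h1 : (1 : Kr A) ∈ Submodule.span (Kr A) {t} ⊔ J := by
    rw [hJ.sup_eq_top]; exact Submodule.mem_top
  obtain ⟨e, he, e', he', h2⟩ := Submodule.mem_sup.1 h1
  obtain ⟨x, hx⟩ := Submodule.mem_span_singleton.1 he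
  have h3 : t * e = 0 := by
    rw [← hx, smul_eq_mul]
    ext <;> simp [t]
  have h4 : t = t * e' := by
    calc t = t * (e + e') := by rw [h2, mul_one]
      _ = t * e' := by rw [mul_add, h3, zero_add]
  have h5 : t ∈ J := by
    rw [h4]
    exact J.smul_mem t he'
  have h6 : t ∈ Submodule.span (Kr A) {t} ⊓ J := ⟨Submodule.mem_span_singleton_self t, h5⟩
  rw [hJ.inf_eq_bot] at h6
  have h7 : t = 0 := h6
  have h8 : (1 : A) = 0 := congrArg Kr.u h7
  exact one_ne_zero h8

end H965R5.Rig.SS
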