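import Pool.Agent.H965R5.Rig.Fun
set_option autoImplicit false
set_option linter.unusedSectionVars false
universe u
open CategoryTheory CategoryTheory.Abelian CategoryTheory.Limits
namespace H965R5.Rig
variable {A : Type u} [Ring A]
open Kr

section
variable (A)
/-- first and second part -/
abbrev Q1 (M : Type u) [AddCommGroup M] [Module (Kr A) M] : Type u := PM (e1 : Kr A) idem1 M
abbrev Q2 (M : Type u) [AddCommGroup M] [Module (Kr A) M] : Type u := PM (e2 : Kr A) idem2 M
end

section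
variable {M : Type u} [AddCommGroup M] [Module (Kr A) M]
lemma PM1_prop (m : Q1 A M) : (e1 : Kr A) • m.1 = m.1 := m.2
lemma PM2_prop (m : Q2 A M) : (e2 : Kr A) • m.1 = m.1 := m.2

lemma e1_split (r : Kr A) (m : Q1 A M) :
    r • m.1 = iota r.a • m.1 + (ax : Kr A) • (iota r.u • m.1) + (ay : Kr A) • (iota r.v • m.1) := by
  conv_lhs => rw [← PM1_prop m]
  conv_rhs => rw [← PM1_prop m]
  simp only [← mul_smul, ← add_smul]
  congr 1
  ext <;> simp [e1, ax, ay]

lemma ax_smul (r : Kr A) (m : M) :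
    r • ((ax : Kr A) • m) = (ax : Kr A) • (iota r.b • m) := by
  simp only [← mul_smul]
  congr 1
  ext <;> simp [ax]

lemma ay_smul (r : Kr A) (m : M) :
    r • ((ay : Kr A) • m) = (ay : Kr A) • (iota r.b • m) := by
  simp only [← mul_smul]
  congr 1
  ext <;> simp [ay]

lemma e2_split (r : Kr A) (m : Q2 A M) :
    r • m.1 = iota r.b • m.1 := by
  conv_lhs => rw [← PM2_prop m]
  conv_rhs => rw [← PM2_prop m]
  simp only [← mul_smul]
  congr 1
  ext <;> simp [e2]

lemma e2_ax (m : M) : (e2 : Kr A) • ((ax : Kr A) • m) = (ax : Kr A) • m := by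
  simp only [← mul_smul]
  congr 1
  ext <;> simp [e2, ax]
lemma e2_ay (m : M) : (e2 : Kr A) • ((ay : Kr A) • m) = (ay : Kr A) • m := by
  simp only [← mul_smul]
  congr 1
  ext <;> simp [e2, ay]
end

/-- counit at the first vertex, as a linear map -/
def c1 (M : Type u) [AddCommGroup M] [Module (Kr A) M] : F1T (Q1 A M) →ₗ[Kr A] M where
  toFun m := m.1.1 + (ax : Kr A) • m.2.1.1 + (ay : Kr A) • m.2.2.1
  map_add' m n := by
    change (m.1.1 + n.1.1) + (ax : Kr A) • (m.2.1.1 + n.2.1.1) +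
      (ay : Kr A) • (m.2.2.1 + n.2.2.1) = _
    simp only [smul_add]
    abel
  map_smul' r m := by
    change (iota r.a • m.1.1) + (ax : Kr A) • (iota r.b • m.2.1.1 + iota r.u • m.1.1) +
      (ay : Kr A) • (iota r.b • m.2.2.1 + iota r.v • m.1.1) =
      r • (m.1.1 + (ax : Kr A) • m.2.1.1 + (ay : Kr A) • m.2.2.1)
    simp only [smul_add, ax_smul, ay_smul, e1_split r m.1]
    abel

/-- counit at the second vertex, as a linear map -/
def c2 (M : Type u) [AddCommGroup M] [Module (Kr A) M] : F2T (Q2 A M) →ₗ[Kr A] M where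
  toFun m := (show Q2 A M from m).1
  map_add' m n := rfl
  map_smul' r m := (e2_split r (show Q2 A M from m)).symm

/-- counit at the first vertex -/
def eps1 : ev (idem1 (A := A)) ⋙ F1 ⟶ 𝟭 (ModuleCat.{u} (Kr A)) where
  app M := ModuleCat.ofHom (c1 M)
  naturality M N f := by
    ext m
    change (f.hom m.1.1) + (ax : Kr A) • (f.hom m.2.1.1) + (ay : Kr A) • (f.hom m.2.2.1) =
      f.hom (m.1.1 + (ax : Kr A) • m.2.1.1 + (ay : Kr A) • m.2.2.1)
    simp only [map_add, map_smul]

/-- counit at the second vertex -/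
def eps2 : ev (idem2 (A := A)) ⋙ F2 ⟶ 𝟭 (ModuleCat.{u} (Kr A)) where
  app M := ModuleCat.ofHom (c2 M)
  naturality M N f := by
    ext m
    rfl

/-- the two arrows -/
def lx (M : Type u) [AddCommGroup M] [Module (Kr A) M] : Q1 A M →ₗ[A] Q2 A M where
  toFun := fun m => ⟨(ax : Kr A) • m.1, e2_ax m.1⟩
  map_add' := fun m n => Subtype.ext (smul_add (ax : Kr A) m.1 n.1)
  map_smul' := fun a m => Subtype.ext (by
    change (ax : Kr A) • (iota a • m.1) = iota a • ((ax : Kr A) • m.1)
    rw [ax_smul]; rfl)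

def ly (M : Type u) [AddCommGroup M] [Module (Kr A) M] : Q1 A M →ₗ[A] Q2 A M where
  toFun := fun m => ⟨(ay : Kr A) • m.1, e2_ay m.1⟩
  map_add' := fun m n => Subtype.ext (smul_add (ay : Kr A) m.1 n.1)
  map_smul' := fun a m => Subtype.ext (by
    change (ay : Kr A) • (iota a • m.1) = iota a • ((ay : Kr A) • m.1)
    rw [ay_smul]; rfl)

def tx : ev (idem1 (A := A)) ⟶ ev (idem2 (A := A)) where
  app M := ModuleCat.ofHom (X := Q1 A M) (Y := Q2 A M) (lx M)
  naturality M N f := by
    ext m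
    apply Subtype.ext
    exact (map_smul f.hom (ax : Kr A) m.1).symm

def ty : ev (idem1 (A := A)) ⟶ ev (idem2 (A := A)) where
  app M := ModuleCat.ofHom (X := Q1 A M) (Y := Q2 A M) (ly M)
  naturality M N f := by
    ext m
    apply Subtype.ext
    exact (map_smul f.hom (ay : Kr A) m.1).symm

lemma e2_F2 (N : Type u) [AddCommGroup N] [Module A N] (n : F2T N) :
    (e2 : Kr A) • n = n := one_smul A (show N from n)

/-- unit at the second vertex -/
def eta2 (N : ModuleCat.{u} A) : N ⟶ (ev (idem2 (A := A))).obj (F2.obj N) :=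
  ModuleCat.ofHom (X := N) (Y := Q2 A (F2T N))
    { toFun := fun n => ⟨n, e2_F2 N n⟩
      map_add' := fun m n => rfl
      map_smul' := fun a m => rfl }

lemma tri2 (N : ModuleCat.{u} A) : F2.map (eta2 N) ≫ eps2.app (F2.obj N) = 𝟙 (F2.obj N) := by
  ext m
  rfl

/-- the first map of the canonical sequence -/
def sf (M : Type u) [AddCommGroup M] [Module (Kr A) M] :
    F2T (Q1 A M × Q1 A M) →ₗ[Kr A] F1T (Q1 A M) × F2T (Q2 A M) where
  toFun m := (((0, -(show Q1 A M × Q1 A M from m).1, -(show Q1 A M × Q1 A M from m).2) :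
            Q1 A M × Q1 A M × Q1 A M),
          (lx M (show Q1 A M × Q1 A M from m).1 + ly M (show Q1 A M × Q1 A M from m).2 : Q2 A M))
  map_add' m n := by
    refine Prod.ext (Prod.ext ?_ (Prod.ext ?_ ?_)) ?_
    · exact (add_zero (0 : Q1 A M)).symm
    · exact neg_add (α := Q1 A M) _ _
    · exact neg_add (α := Q1 A M) _ _
    · change lx M (_ + _) + ly M (_ + _) = (_ + _) + (_ + _)
      rw [map_add, map_add]
      abel
  map_smul' r m := by
    refine Prod.ext (Prod.ext ?_ (Prod.ext ?_ ?_)) ?_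
    · exact (smul_zero (A := Q1 A M) r.a).symm
    · change -(r.b • _) = r.b • (-_) + r.u • (0 : Q1 A M)
      rw [smul_zero, add_zero, smul_neg]
    · change -(r.b • _) = r.b • (-_) + r.v • (0 : Q1 A M)
      rw [smul_zero, add_zero, smul_neg]
    · change lx M (r.b • (show Q1 A M × Q1 A M from m).1) +
        ly M (r.b • (show Q1 A M × Q1 A M from m).2) =
        r.b • (lx M (show Q1 A M × Q1 A M from m).1 + ly M (show Q1 A M × Q1 A M from m).2)
      rw [map_smul, map_smul, smul_add]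

/-- the canonical sequence -/
def sq (X : ModuleCat.{u} (Kr A)) : ShortComplex (ModuleCat.{u} (Kr A)) where
  X₁ := ModuleCat.of (Kr A) (F2T (Q1 A X × Q1 A X))
  X₂ := ModuleCat.of (Kr A) (F1T (Q1 A X) × F2T (Q2 A X))
  X₃ := X
  f := ModuleCat.ofHom (sf X)
  g := ModuleCat.ofHom (LinearMap.coprod (c1 X) (c2 X))
  zero := by
    ext m
    change ((0 : X) + (ax : Kr A) • (-(show Q1 A X × Q1 A X from m).1.1) +
      (ay : Kr A) • (-(show Q1 A X × Q1 A X from m).2.1)) + 
      ((ax : Kr A) • (show Q1 A X × Q1 A X from m).1.1 +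
        (ay : Kr A) • (show Q1 A X × Q1 A X from m).2.1) = 0
    simp only [smul_neg]
    abel

lemma one_eq : (1 : Kr A) = e1 + e2 := by ext <;> simp [e1, e2]

lemma e1_c1 {M : Type u} [AddCommGroup M] [Module (Kr A) M] (m : F1T (Q1 A M)) :
    (e1 : Kr A) • (c1 M m) = m.1.1 := by
  change (e1 : Kr A) • (m.1.1 + (ax : Kr A) • m.2.1.1 + (ay : Kr A) • m.2.2.1) = m.1.1
  have h1 : (e1 : Kr A) * ax = 0 := by ext <;> simp [e1, ax]
  have h2 : (e1 : Kr A) * ay = 0 := by ext <;> simp [e1, ay]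
  rw [smul_add, smul_add, ← mul_smul, ← mul_smul, h1, h2, zero_smul, zero_smul, PM1_prop]
  simp

lemma e1_c2 {M : Type u} [AddCommGroup M] [Module (Kr A) M] (m : F2T (Q2 A M)) :
    (e1 : Kr A) • (c2 M m) = 0 := by
  change (e1 : Kr A) • (show Q2 A M from m).1 = 0
  rw [← PM2_prop (show Q2 A M from m), ← mul_smul]
  have h1 : (e1 : Kr A) * e2 = 0 := by ext <;> simp [e1, e2]
  rw [h1, zero_smul]

lemma sq_surj (M : Type u) [AddCommGroup M] [Module (Kr A) M] :
    Function.Surjective (LinearMap.coprod (c1 (A := A) M) (c2 M)) := by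
  intro x
  refine ⟨(((⟨(e1 : Kr A) • x, by
    change (e1 : Kr A) • ((e1 : Kr A) • x) = _; rw [← mul_smul, idem1.sq]⟩, 0, 0) :
    Q1 A M × Q1 A M × Q1 A M), (⟨(e2 : Kr A) • x, by
    change (e2 : Kr A) • ((e2 : Kr A) • x) = _; rw [← mul_smul, idem2.sq]⟩ : Q2 A M)), ?_⟩
  change ((e1 : Kr A) • x + (ax : Kr A) • (0 : M) + (ay : Kr A) • (0 : M)) + (e2 : Kr A) • x = x
  rw [smul_zero, smul_zero, add_zero, add_zero, ← add_smul, ← one_eq, one_smul]

lemma sq_exact (X : ModuleCat.{u} (Kr A)) : (sq X).ShortExact := by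
  refine ModuleCat.shortComplex_shortExact _ ?_ ?_ ?_
  · rintro ⟨m, n⟩
    constructor
    · intro h
      change c1 X m + c2 X n = 0 at h
      have h1 : m.1.1 = 0 := by
        have h2 := congrArg (fun z => (e1 : Kr A) • z) h
        simp only [smul_add, e1_c1, e1_c2, smul_zero, add_zero] at h2
        exact h2
      refine ⟨((-m.2.1, -m.2.2) : Q1 A X × Q1 A X), ?_⟩
      have h3 : m.1 = 0 := Subtype.ext h1
      refine Prod.ext (Prod.ext ?_ (Prod.ext ?_ ?_)) ?_
      · exact h3.symm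
      · exact neg_neg (G := Q1 A X) m.2.1
      · exact neg_neg (G := Q1 A X) m.2.2
      · apply Subtype.ext
        change (ax : Kr A) • (-m.2.1.1) + (ay : Kr A) • (-m.2.2.1) = (show Q2 A X from n).1
        change (m.1.1 + (ax : Kr A) • m.2.1.1 + (ay : Kr A) • m.2.2.1) +
          (show Q2 A X from n).1 = 0 at h
        rw [h1, zero_add] at h
        rw [← neg_eq_of_add_eq_zero_right h]
        simp only [smul_neg]
        abel
    · rintro ⟨l, hl⟩
      rw [← hl]
      exact congrArg (fun (z : (sq X).X₁ ⟶ (sq X).X₃) => z.hom l) (sq X).zero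
  · intro m n h
    have h1 : -(show Q1 A X × Q1 A X from m).1 = -(show Q1 A X × Q1 A X from n).1 :=
      congrArg (fun z => z.1.2.1) h
    have h2 : -(show Q1 A X × Q1 A X from m).2 = -(show Q1 A X × Q1 A X from n).2 :=
      congrArg (fun z => z.1.2.2) h
    exact Prod.ext (neg_injective h1) (neg_injective h2)
  · exact sq_surj X

end H965R5.Rig
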