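import Pool.Agent.H965R5.Rig.Rep
import Pool.Agent.H965R5.Rig.LinjP
import Pool.Agent.H965R5.Rig.LSURJ
import Pool.Agent.H965R5.Rig.LEND
import Pool.Agent.H965R5.Rig.FIN
import Pool.Agent.H965R5.Rig.Conn
import Pool.Agent.H965R5.Rig.SS
set_option autoImplicit false
set_option linter.unusedSectionVars false
universe u
open CategoryTheory CategoryTheory.Abelian CategoryTheory.Limits
namespace H965R5.Rig
open Kr
variable {A : Type u} [Ring A]

lemma step_le (hS : TaskLsurj.{u}) {P P' : ModuleCat.{u} A} {a b : ℕ} (hab : a ≤ b)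
    (h : ∀ p, 1 ≤ p → ∀ z : Ext.{u} P P' p, z = 0) (p : ℕ) (hp : 1 ≤ p)
    (z : Ext.{u} (TM a P) (TM b P') p) : z = 0 := by
  have h1 : z.mapExactFunctor (E1 (A := A)) = 0 := (dd1 a P).ext_all (dd1 b P') p (h p hp) _
  have h2 : z.mapExactFunctor (E2 (A := A)) = 0 := (dd2 a P).ext_all (dd2 b P') p (h p hp) _
  rcases Nat.lt_or_ge 1 p with hp1 | hp1
  · exact van _ _ p z h1 h2 (fun q hq w => (dd1 a P).ext_all (dd2 b P') q (h q (by omega)) w)
  · obtain rfl : p = 1 := by omega
    exact van1 _ _ z h1 h2 (fun s t => (rd a P).surj hS (rd b P') hab s t)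

lemma step_lt (hI : TaskLinj.{u}) {P P' : ModuleCat.{u} A} {a b r : ℕ} (hab : b < a)
    (h : ∀ p, p < r → ∀ z : Ext.{u} P P' p, z = 0) (p : ℕ) (hp : p < r + 1)
    (z : Ext.{u} (TM a P) (TM b P') p) : z = 0 := by
  have h0 := RD.inj hI (rd a P) (rd b P') hab p (z.mapExactFunctor (E1 (A := A)))
    (z.mapExactFunctor (E2 (A := A))) (ext_naturality E1 E2 tx p _ _ z)
    (ext_naturality E1 E2 ty p _ _ z)
  exact van _ _ p z h0.1 h0.2
    (fun q hq w => (dd1 a P).ext_all (dd2 b P') q (h q (by omega)) w)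

section
variable {K : Type u} [Field K] [Algebra K A]

/-- scalar endomorphism -/
def sc (Z : ModuleCat.{u} A) (c : K) : Z ⟶ Z := ModuleCat.ofHom
  { toFun := fun z => algebraMap K A c • z
    map_add' := fun z w => smul_add _ z w
    map_smul' := fun a z => by
      change algebraMap K A c • (a • z) = a • (algebraMap K A c • z)
      rw [← mul_smul, ← mul_smul, Algebra.commutes] }

lemma sc_comm {Z Z' : ModuleCat.{u} A} (c : K) (g : Z ⟶ Z') : sc Z c ≫ g = g ≫ sc Z' c := by
  ext z
  exact map_smul g.hom (algebraMap K A c) z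

lemma end_scalar (hE : TaskLend.{u}) (n : ℕ) (P : ModuleCat.{u} A)
    (hP : ∀ g : P ⟶ P, ∃ c : K, ∀ p, g.hom p = algebraMap K A c • p)
    (f : TM n P ⟶ TM n P) : ∃ c : K, ∀ m, f.hom m = algebraMap K (Kr A) c • m := by
  obtain ⟨c0, hc1, hc2⟩ := (rd n P).endo hE ((E1 (A := A)).map f) ((E2 (A := A)).map f)
    (tx.naturality f) (ty.naturality f)
  obtain ⟨c, hc⟩ := hP c0
  have hc0 : c0 = sc P c := by
    ext p
    exact hc p
  have k1 : (E1 (A := A)).map f = sc _ c := by
    apply (rd n P).d1.ext2 (rd n P).d1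
    intro a b ha hb
    rw [hc1 a b ha hb, sc_comm, ← Category.assoc, (rd n P).d1.orth a b ha hb]
    by_cases hab : b = a
    · rw [if_pos hab, if_pos hab.symm, hc0, Category.id_comp]
    · rw [if_neg hab, if_neg (Ne.symm hab), zero_comp]
  have k2 : (E2 (A := A)).map f = sc _ c := by
    apply (rd n P).d2.ext2 (rd n P).d2
    intro a b ha hb
    rw [hc2 a b ha hb, sc_comm, ← Category.assoc, (rd n P).d2.orth a b ha hb]
    by_cases hab : b = a
    · rw [if_pos hab, if_pos hab.symm, hc0, Category.id_comp]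
    · rw [if_neg hab, if_neg (Ne.symm hab), zero_comp]
  refine ⟨c, fun m => ?_⟩
  have s1 : f.hom ((e1 : Kr A) • m) = iota (algebraMap K A c) • ((e1 : Kr A) • m) := by
    have := congrArg (fun g => (g.hom (⟨(e1 : Kr A) • m, by
      change (e1 : Kr A) • ((e1 : Kr A) • m) = _; rw [← mul_smul, idem1.sq]⟩ :
        Q1 A (T n P))).1) k1
    exact this
  have s2 : f.hom ((e2 : Kr A) • m) = iota (algebraMap K A c) • ((e2 : Kr A) • m) := by
    have := congrArg (fun g => (g.hom (⟨(e2 : Kr A) • m, by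
      change (e2 : Kr A) • ((e2 : Kr A) • m) = _; rw [← mul_smul, idem2.sq]⟩ :
        Q2 A (T n P))).1) k2
    exact this
  have s3 : m = (e1 : Kr A) • m + (e2 : Kr A) • m := by
    rw [← add_smul, ← one_eq, one_smul]
  rw [algebraMap_eq]
  conv_lhs => rw [s3]
  rw [map_add, s1, s2, ← smul_add, ← s3]
end

lemma T_finite (n : ℕ) (P : Type u) [AddCommGroup P] [Module A P] [Module.Finite A P] :
    Module.Finite (Kr A) (T n P) := by
  obtain ⟨S, hS⟩ := (Module.Finite.fg_top : (⊤ : Submodule A P).FG)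
  let N : Submodule (Kr A) (T n P) := Submodule.span (Kr A)
    ((⋃ i ∈ Finset.range (n + 1), (fun p => (in1 (A := A) n P i p).1) '' (S : Set P)) ∪
      (⋃ i ∈ Finset.range (n + 2), (fun p => (in2 (A := A) n P i p).1) '' (S : Set P)))
  have hN1 : ∀ i, i ≤ n → ∀ p : P, (in1 (A := A) n P i p).1 ∈ N := by
    intro i hi p
    have hp : p ∈ Submodule.span A (S : Set P) := by rw [hS]; trivial
    induction hp using Submodule.span_induction with
    | mem x hx =>
      refine Submodule.subset_span (Or.inl ?_)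
      simp only [Set.mem_iUnion]
      exact ⟨i, Finset.mem_range.2 (by omega), x, hx, rfl⟩
    | zero =>
      rw [map_zero]
      exact N.zero_mem
    | add x y _ _ hx hy =>
      rw [map_add]
      exact N.add_mem hx hy
    | smul a x _ hx =>
      rw [map_smul]
      exact N.smul_mem (iota a) hx
  have hN2 : ∀ i, i ≤ n + 1 → ∀ p : P, (in2 (A := A) n P i p).1 ∈ N := by
    intro i hi p
    have hp : p ∈ Submodule.span A (S : Set P) := by rw [hS]; trivial
    induction hp using Submodule.span_induction with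
    | mem x hx =>
      refine Submodule.subset_span (Or.inr ?_)
      simp only [Set.mem_iUnion]
      exact ⟨i, Finset.mem_range.2 (by omega), x, hx, rfl⟩
    | zero =>
      rw [map_zero]
      exact N.zero_mem
    | add x y _ _ hx hy =>
      rw [map_add]
      exact N.add_mem hx hy
    | smul a x _ hx =>
      rw [map_smul]
      exact N.smul_mem (iota a) hx
  have q1 : ∀ z : Q1 A (T n P), z.1 ∈ N := by
    intro z
    let φ : ((E1 (A := A)).obj (TM n (ModuleCat.of A P)) ⟶
        (E1 (A := A)).obj (TM n (ModuleCat.of A P))) →+ T n P :=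
      AddMonoidHom.mk' (fun g => (show Q1 A (T n P) from g.hom z).1) (fun _ _ => rfl)
    have h2 : z.1 = φ (𝟙 _) := rfl
    rw [h2, ← (dd1 n (ModuleCat.of A P)).tot, map_sum]
    exact N.sum_mem fun k hk => hN1 k (by have := Finset.mem_range.1 hk; omega) _
  have q2 : ∀ z : Q2 A (T n P), z.1 ∈ N := by
    intro z
    let φ : ((E2 (A := A)).obj (TM n (ModuleCat.of A P)) ⟶
        (E2 (A := A)).obj (TM n (ModuleCat.of A P))) →+ T n P :=
      AddMonoidHom.mk' (fun g => (show Q2 A (T n P) from g.hom z).1) (fun _ _ => rfl)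
    have h2 : z.1 = φ (𝟙 _) := rfl
    rw [h2, ← (dd2 n (ModuleCat.of A P)).tot, map_sum]
    exact N.sum_mem fun k hk => hN2 k (by have := Finset.mem_range.1 hk; omega) _
  refine Module.Finite.of_fg_top ?_
  have hT : N = ⊤ := by
    refine eq_top_iff.2 fun m _ => ?_
    have s3 : m = (e1 : Kr A) • m + (e2 : Kr A) • m := by
      rw [← add_smul, ← one_eq, one_smul]
    rw [s3]
    exact N.add_mem
      (q1 ⟨(e1 : Kr A) • m, by
        change (e1 : Kr A) • ((e1 : Kr A) • m) = _; rw [← mul_smul, idem1.sq]⟩)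
      (q2 ⟨(e2 : Kr A) • m, by
        change (e2 : Kr A) • ((e2 : Kr A) • m) = _; rw [← mul_smul, idem2.sq]⟩)
  rw [← hT]
  refine Submodule.fg_span ?_
  refine Set.Finite.union ?_ ?_
  · exact Set.Finite.biUnion (Finset.finite_toSet _) fun i _ => (Finset.finite_toSet S).image _
  · exact Set.Finite.biUnion (Finset.finite_toSet _) fun i _ => (Finset.finite_toSet S).image _

lemma T_nontrivial (n : ℕ) (P : Type u) [AddCommGroup P] [Module A P] [Nontrivial P] :
    Nontrivial (T n P) := by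
  obtain ⟨p, hp⟩ := exists_ne (0 : P)
  refine ⟨⟨(in1 (A := A) n P 0 p).1, 0, fun h => hp ?_⟩⟩
  have h1 : sg n 0 p 0 = 0 := congrArg (fun z : T n P => z.1.1 0) h
  rwa [sg, if_pos ⟨rfl, Nat.zero_le n⟩] at h1

/-- the inductive package -/
def Good (K : Type u) [Field K] (r : ℕ) : Prop :=
  ∃ (A : Type u) (_ : Ring A) (_ : Algebra K A) (M : ℕ → ModuleCat.{u} A),
    Module.Finite K A ∧ Nontrivial A ∧
    (∀ c : A, c * c = c → (∀ x, c * x = x * c) → c = 0 ∨ c = 1) ∧
    (1 ≤ r → ¬ IsSemisimpleRing A) ∧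
    (∀ n, Module.Finite A (M n)) ∧ (∀ n, Nontrivial (M n)) ∧
    (∀ n (f : M n ⟶ M n), ∃ c : K, ∀ m, f.hom m = algebraMap K A c • m) ∧
    (∀ a b, a ≤ b → ∀ p, 1 ≤ p → ∀ z : Ext.{u} (M a) (M b) p, z = 0) ∧
    (∀ a b, b < a → ∀ p, p < r → ∀ z : Ext.{u} (M a) (M b) p, z = 0)


lemma K_end (K : Type u) [Field K] (f : ModuleCat.of K K ⟶ ModuleCat.of K K) :
    ∃ c : K, ∀ m, f.hom m = algebraMap K K c • m := by
  refine ⟨f.hom (1 : K), fun m => ?_⟩
  have h := map_smul f.hom (m : K) (1 : K)
  have h2 : (m : K) • (1 : K) = m := by simp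
  change f.hom (m • (1 : K)) = m • f.hom (1 : K) at h
  rw [h2] at h
  rw [h]
  change (m : K) * f.hom (1 : K) = f.hom (1 : K) * m
  exact mul_comm _ _

lemma good_zero (K : Type u) [Field K] : Good K 0 := by
  refine ⟨K, inferInstance, inferInstance, fun _ => ModuleCat.of K K, inferInstance,
    inferInstance, ?_, ?_, ?_, ?_, ?_, ?_, ?_⟩
  · intro c hc _
    have h : c * (c - 1) = 0 := by rw [mul_sub, hc, mul_one, sub_self]
    rcases mul_eq_zero.1 h with h | h
    · exact Or.inl h
    · exact Or.inr (sub_eq_zero.1 h)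
  · intro h
    omega
  · intro n
    exact inferInstanceAs (Module.Finite K K)
  · intro n
    exact inferInstanceAs (Nontrivial K)
  · intro n f
    exact K_end K f
  · intro a b _ p hp z
    obtain ⟨q, rfl⟩ : ∃ q, p = q + 1 := ⟨p - 1, by omega⟩
    haveI : Projective (ModuleCat.of K K) :=
      (IsProjective.iff_projective (R := K) (P := K)).1 inferInstance
    have := Ext.subsingleton_of_projective (P := ModuleCat.of K K) (Y := ModuleCat.of K K) (n := q)
    exact Subsingleton.elim _ _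
  · intro a b _ p hp
    omega

lemma good_succ (K : Type u) [Field K] (r : ℕ) (h : Good K r) : Good K (r + 1) := by
  obtain ⟨A, _, _, M, h1, h2, h3, h4, h5, h6, h7, h8, h9⟩ := h
  refine ⟨Kr A, inferInstance, inferInstance, fun n => TM n (M n), FIN.fin_ok K A h1,
    ⟨0, 1, fun h => zero_ne_one (congrArg Kr.a h)⟩, Conn.conn_ok A h3, fun _ => SS.ss_ok A, ?_, ?_, ?_,
    ?_, ?_⟩
  · intro n
    haveI := h5 n
    exact T_finite n (M n)
  · intro n
    haveI := h6 n
    exact T_nontrivial (A := A) n (M n)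
  · intro n f
    exact end_scalar LEND.lend n (M n) (h7 n) f
  · intro a b hab p hp z
    exact step_le LSURJ.lsurj hab (h8 a b hab) p hp z
  · intro a b hab p hp z
    exact step_lt linj_ok hab (h9 a b hab) p hp z

lemma good_all (K : Type u) [Field K] (r : ℕ) : Good K r := by
  induction r with
  | zero => exact good_zero K
  | succ r ih => exact good_succ K r ih

end H965R5.Rig
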