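import Pool.Agent.H965R5.Rig.Seq
set_option autoImplicit false
set_option linter.unusedSectionVars false
universe w v u
open CategoryTheory CategoryTheory.Abelian CategoryTheory.Limits
namespace H965R5.Rig

section
variable {C : Type u} [Category.{v} C] [Abelian C] [HasExt.{w} C]

lemma kill2 {S P Q X Y : C} {p : ℕ} (f1 : S ⟶ P) (g1 : P ⟶ X) (f2 : S ⟶ Q) (g2 : Q ⟶ X)
    (g : S ⟶ X) (hg : g = f1 ≫ g1 + f2 ≫ g2) (ξ : Ext.{w} X Y p)
    (a1 : (Ext.mk₀ g1).comp ξ (zero_add p) = 0) (a2 : (Ext.mk₀ g2).comp ξ (zero_add p) = 0) :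
    (Ext.mk₀ g).comp ξ (zero_add p) = 0 := by
  rw [hg, Ext.mk₀_add, Ext.add_comp, ← Ext.mk₀_comp_mk₀_assoc, ← Ext.mk₀_comp_mk₀_assoc, a1, a2]
  simp

lemma van_abs {S : ShortComplex C} (hS : S.ShortExact) (Y : C) (p : ℕ) (ξ : Ext.{w} S.X₃ Y p)
    (k : (Ext.mk₀ S.g).comp ξ (zero_add p) = 0)
    (h : ∀ q, q + 1 = p → ∀ z : Ext.{w} S.X₁ Y q, z = 0) : ξ = 0 := by
  cases p with
  | zero =>
    obtain ⟨f, rfl⟩ := (Ext.mk₀_bijective _ Y).2 ξ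
    rw [Ext.mk₀_comp_mk₀] at k
    have k2 : S.g ≫ f = 0 := (Ext.mk₀_bijective _ _).1 (k.trans (Ext.mk₀_zero _ _).symm)
    haveI : Epi S.g := hS.epi_g
    have k3 : f = 0 := (cancel_epi S.g).1 (k2.trans comp_zero.symm)
    rw [k3]
    exact Ext.mk₀_zero _ _
  | succ q =>
    obtain ⟨x, hx⟩ := Ext.contravariant_sequence_exact₃ hS Y ξ k (add_comm 1 q)
    have := h q rfl x
    rw [this] at hx
    rw [← hx]
    simp

lemma van1_abs {S : ShortComplex C} (hS : S.ShortExact) (Y : C) (ξ : Ext.{w} S.X₃ Y 1)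
    (k : (Ext.mk₀ S.g).comp ξ (zero_add 1) = 0)
    (h : ∀ φ : S.X₁ ⟶ Y, ∃ ψ : S.X₂ ⟶ Y, φ = S.f ≫ ψ) : ξ = 0 := by
  obtain ⟨x, hx⟩ := Ext.contravariant_sequence_exact₃ hS Y ξ k (add_comm 1 0)
  obtain ⟨φ, rfl⟩ := (Ext.mk₀_bijective _ _).2 x
  obtain ⟨ψ, hψ⟩ := h φ
  rw [← hx, hψ, ← Ext.mk₀_comp_mk₀, ← Ext.comp_assoc _ _ _ (add_zero 1) (zero_add 0) (by omega),
    ShortComplex.ShortExact.extClass_comp]
  simp

lemma ext_split {N P Q Z : C} {p : ℕ} (f1 : N ⟶ P) (g1 : P ⟶ N) (f2 : N ⟶ Q) (g2 : Q ⟶ N)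
    (hg : 𝟙 N = f1 ≫ g1 + f2 ≫ g2) (h1 : ∀ z : Ext.{w} P Z p, z = 0)
    (h2 : ∀ z : Ext.{w} Q Z p, z = 0) (w : Ext.{w} N Z p) : w = 0 := by
  have := kill2 f1 g1 f2 g2 (𝟙 N) hg w (h1 _) (h2 _)
  simpa using this
end

variable {A : Type u} [Ring A]
open Kr

/-- the two functors -/
abbrev E1 : ModuleCat.{u} (Kr A) ⥤ ModuleCat.{u} A := ev (idem1 (A := A))
abbrev E2 : ModuleCat.{u} (Kr A) ⥤ ModuleCat.{u} A := ev (idem2 (A := A))

def pr1 (X : ModuleCat.{u} (Kr A)) : (sq X).X₂ ⟶ F1.obj ((E1 (A := A)).obj X) :=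
  ModuleCat.ofHom (LinearMap.fst (Kr A) (F1T (Q1 A X)) (F2T (Q2 A X)))
def pr2 (X : ModuleCat.{u} (Kr A)) : (sq X).X₂ ⟶ F2.obj ((E2 (A := A)).obj X) :=
  ModuleCat.ofHom (LinearMap.snd (Kr A) (F1T (Q1 A X)) (F2T (Q2 A X)))

def dbl (X : ModuleCat.{u} (Kr A)) : ModuleCat.{u} A := ModuleCat.of A (Q1 A X × Q1 A X)
def dfst (X : ModuleCat.{u} (Kr A)) : dbl X ⟶ (E1 (A := A)).obj X :=
  ModuleCat.ofHom (LinearMap.fst A (Q1 A X) (Q1 A X))
def dsnd (X : ModuleCat.{u} (Kr A)) : dbl X ⟶ (E1 (A := A)).obj X :=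
  ModuleCat.ofHom (LinearMap.snd A (Q1 A X) (Q1 A X))
def dinl (X : ModuleCat.{u} (Kr A)) : (E1 (A := A)).obj X ⟶ dbl X :=
  ModuleCat.ofHom (LinearMap.inl A (Q1 A X) (Q1 A X))
def dinr (X : ModuleCat.{u} (Kr A)) : (E1 (A := A)).obj X ⟶ dbl X :=
  ModuleCat.ofHom (LinearMap.inr A (Q1 A X) (Q1 A X))

/-- a class is killed by the projection if its two parts vanish -/
lemma kv (X Y : ModuleCat.{u} (Kr A)) (p : ℕ) (ξ : Ext.{u} X Y p)
    (h1 : ξ.mapExactFunctor (E1 (A := A)) = 0)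
    (h2 : ξ.mapExactFunctor (E2 (A := A)) = 0) :
    (Ext.mk₀ (sq X).g).comp ξ (zero_add p) = 0 := by
  have a1 := ext_counit E1 F1 eps1 p X Y ξ
  have a2 := ext_counit E2 F2 eps2 p X Y ξ
  rw [h1] at a1
  rw [h2] at a2
  simp only [Ext.mapExactFunctor_zero, Ext.zero_comp] at a1 a2
  have hg : (sq X).g = pr1 X ≫ eps1.app X + pr2 X ≫ eps2.app X := by
    ext m
    rfl
  exact kill2 (pr1 X) (eps1.app X) (pr2 X) (eps2.app X) (sq X).g hg ξ a1.symm a2.symm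

lemma s1 (X Y : ModuleCat.{u} (Kr A)) (q : ℕ)
    (h : ∀ z : Ext.{u} ((E1 (A := A)).obj X) ((E2 (A := A)).obj Y) q, z = 0)
    (z : Ext.{u} (sq X).X₁ Y q) : z = 0 := by
  refine ext_transfer E2 F2 eps2 q (dbl X) Y (eta2 _) (tri2 _) ?_ z
  have hid : 𝟙 (dbl X) = dfst X ≫ dinl X + dsnd X ≫ dinr X := by
    apply ModuleCat.hom_ext
    apply LinearMap.ext
    intro m
    have e1 : (show Q1 A X × Q1 A X from m) =
      ((show Q1 A X × Q1 A X from m).1, (0 : Q1 A X)) +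
        ((0 : Q1 A X), (show Q1 A X × Q1 A X from m).2) := by
      refine Prod.ext ?_ ?_
      · exact (add_zero _).symm
      · exact (zero_add _).symm
    exact e1
  exact ext_split (dfst X) (dinl X) (dsnd X) (dinr X) hid h h

/-- the vanishing criterion -/
lemma van (X Y : ModuleCat.{u} (Kr A)) (p : ℕ) (ξ : Ext.{u} X Y p)
    (h1 : ξ.mapExactFunctor (E1 (A := A)) = 0)
    (h2 : ξ.mapExactFunctor (E2 (A := A)) = 0)
    (h3 : ∀ q, q + 1 = p →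
      ∀ z : Ext.{u} ((E1 (A := A)).obj X) ((E2 (A := A)).obj Y) q, z = 0) : ξ = 0 :=
  van_abs (sq_exact X) Y p ξ (kv X Y p ξ h1 h2) (fun q hq z => s1 X Y q (h3 q hq) z)

/-- adjoint of a map out of the induced module -/
def adj2 (N M : Type u) [AddCommGroup N] [Module A N] [AddCommGroup M] [Module (Kr A) M]
    (φ : F2T N →ₗ[Kr A] M) : N →ₗ[A] Q2 A M where
  toFun m := ⟨φ (show F2T N from m), by
    have h := map_smul φ (e2 : Kr A) (show F2T N from m)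
    rw [e2_F2] at h
    exact h.symm⟩
  map_add' m n := Subtype.ext (map_add φ (show F2T N from m) (show F2T N from n))
  map_smul' a m := Subtype.ext (map_smul φ (iota a) (show F2T N from m))

/-- the vanishing criterion in degree one -/
lemma van1 (X Y : ModuleCat.{u} (Kr A)) (ξ : Ext.{u} X Y 1)
    (h1 : ξ.mapExactFunctor (E1 (A := A)) = 0)
    (h2 : ξ.mapExactFunctor (E2 (A := A)) = 0)
    (h3 : ∀ s t : (E1 (A := A)).obj X ⟶ (E2 (A := A)).obj Y,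
      ∃ (G : (E1 (A := A)).obj X ⟶ (E1 (A := A)).obj Y)
        (H : (E2 (A := A)).obj X ⟶ (E2 (A := A)).obj Y),
        s = tx.app X ≫ H - G ≫ tx.app Y ∧ t = ty.app X ≫ H - G ≫ ty.app Y) : ξ = 0 := by
  refine van1_abs (sq_exact X) Y ξ (kv X Y 1 ξ h1 h2) ?_
  intro φ
  let φ' : F2T (Q1 A X × Q1 A X) →ₗ[Kr A] Y := φ.hom
  let ψ : (Q1 A X × Q1 A X) →ₗ[A] Q2 A Y := adj2 (Q1 A X × Q1 A X) Y φ'
  obtain ⟨G, H, hs, ht⟩ := h3 (ModuleCat.ofHom (ψ.comp (LinearMap.inl A (Q1 A X) (Q1 A X))))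
    (ModuleCat.ofHom (ψ.comp (LinearMap.inr A (Q1 A X) (Q1 A X))))
  refine ⟨pr1 X ≫ F1.map G ≫ eps1.app Y + pr2 X ≫ F2.map H ≫ eps2.app Y, ?_⟩
  apply ModuleCat.hom_ext
  apply LinearMap.ext
  intro m0
  obtain ⟨m, n⟩ := m0
  have q1 : (ψ (m, 0)).1 = (H.hom (lx X m)).1 - (ax : Kr A) • (G.hom m).1 :=
    congrArg (fun z => (z.hom m).1) hs
  have q2 : (ψ (0, n)).1 = (H.hom (ly X n)).1 - (ay : Kr A) • (G.hom n).1 :=
    congrArg (fun z => (z.hom n).1) ht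
  have q3 : (ψ (m, n)).1 = (ψ (m, 0)).1 + (ψ (0, n)).1 := by
    have e0 : ((m, n) : Q1 A X × Q1 A X) = (m, 0) + (0, n) := by
      change ((m, n) : Q1 A X × Q1 A X) = (m + 0, 0 + n)
      rw [add_zero, zero_add]
    rw [e0, map_add]
    rfl
  change (ψ (m, n)).1 = ((G.hom 0).1 + (ax : Kr A) • (G.hom (-m)).1 +
    (ay : Kr A) • (G.hom (-n)).1) + (H.hom (lx X m + ly X n)).1
  have r1 : (G.hom (0 : Q1 A X)).1 = 0 := congrArg Subtype.val (map_zero G.hom)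
  have r2 : (G.hom (-m : Q1 A X)).1 = - (G.hom m).1 := congrArg Subtype.val (map_neg G.hom m)
  have r3 : (G.hom (-n : Q1 A X)).1 = - (G.hom n).1 := congrArg Subtype.val (map_neg G.hom n)
  have r4 : (H.hom (lx X m + ly X n : Q2 A X)).1 = (H.hom (lx X m)).1 + (H.hom (ly X n)).1 :=
    congrArg Subtype.val (map_add H.hom (lx X m) (ly X n))
  refine Eq.trans ?_ (congrArg₂ (· + ·) (congrArg₂ (· + ·) (congrArg₂ (· + ·) r1
    (congrArg (fun z => (ax : Kr A) • z) r2)) (congrArg (fun z => (ay : Kr A) • z) r3)) r4).symm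
  rw [q3, q1, q2]
  simp only [smul_neg]
  abel

end H965R5.Rig
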